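import Pool.Agent.Lib.MP_dda4e9_nt.R.Node

/-! Denominators, heights and sizes of the linear forms. -/

namespace Pool.Agent.Lib.MP_dda4e9_nt.RK

open Finset Nat LB

theorem cb_dvd {k M : ℕ} (h : k ≤ M) : centralBinom k ∣ lcmUpto (2 * M) :=
  (Chebyshev.choose_dvd_lcmUpto (n := 2 * k) (k := k) (by omega)).trans
    (Finset.lcm_mono (Icc_subset_Icc_right (by omega)))

section height

variable {σ : Type*} [Fintype σ] {θ : σ → ℂ} {L D : ℕ}

theorem solve (hD0 : 0 < D) (hD : ∀ i < L, (i + 1) * centralBinom (i + 1) ∣ D) {T : ℝ} (hT : 0 ≤ T)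
    {x r : ℕ → ℝ} {c : ℂ} (h : ∀ i : ℕ, (i + 1) * x (i + 1) = (4 * i + 2) * x i + r i)
    (h0 : Hg θ T (c * x 0)) (hr : ∀ i < L, Hg θ (4 * T) (c * r i)) {j : ℕ} (hj : j ≤ L) :
    Hg θ (4 ^ L * (1 + 4 * L) * D * T) (D * c * x j) := by
  have key : ∀ j ≤ L, Hg θ ((1 + 4 * j) * D * T) (D * c * (x j / centralBinom j : ℝ)) := by
    intro j hj
    induction j with
    | zero => exact (h0.nmul D).mono (by simp) (by simp [mul_assoc])
    | succ j ih =>
      obtain ⟨e, he⟩ := hD j hj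
      have h1 : (e : ℝ) ≤ D := by exact_mod_cast Nat.le_of_dvd hD0 (Dvd.intro_left _ he.symm)
      refine ((ih (by omega)).add ((hr j hj).nmul e)).mono (by push_cast; nlinarith) ?_
      have h2 : (D : ℝ) * (x (j + 1) / centralBinom (j + 1)) =
          D * (x j / centralBinom j) + e * r j := by
        have h3 := cb_pos j
        have h4 := cb_pos (j + 1)
        rw [he]
        push_cast
        field_simp
        linear_combination (e * centralBinom j : ℝ) * h j - (e * x j) * cb_succ j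
      have h3 := congrArg (fun z : ℝ => (z : ℂ)) h2
      simp only [Complex.ofReal_mul, Complex.ofReal_add, Complex.ofReal_natCast] at h3
      linear_combination c * h3
  have h1 : (centralBinom j : ℝ) ≤ 4 ^ L := by
    exact_mod_cast (centralBinom_le_four_pow j).trans (Nat.pow_le_pow_right (by norm_num) hj)
  have h2 : (centralBinom j : ℂ) ≠ 0 := by exact_mod_cast centralBinom_ne_zero j
  refine ((key j hj).nmul (centralBinom j)).mono ?_ (by push_cast; field_simp)
  calc _ ≤ 4 ^ L * ((1 + 4 * L) * D * T : ℝ) := by gcongr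
    _ = _ := by ring

theorem integ (hD0 : 0 < D) (hD : ∀ i < L, (i + 1) * centralBinom (i + 1) ∣ D) {W : ℕ}
    (hθ : ∀ w, Al w → w.sum ≤ W → Hg θ 1 (E w)) (s : ℕ) (hs : s ≤ W) :
    ∀ v w, Al v → Al w → v.sum + w.sum < s → ∀ j < L,
      (Ev v ∨ Ev w → Hg θ ((5 * (4 ^ L * (1 + 4 * L) * D)) ^ s) (D ^ s * Z v w (j + 1))) ∧
      (¬ (Ev v ∧ Ev w) → Hg θ ((5 * (4 ^ L * (1 + 4 * L) * D)) ^ s)
        (D ^ s * (4 * Z v w j - Z v w (j + 1) : ℝ))) := by
  induction s with
  | zero => intro v w _ _ h; omega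
  | succ s ih =>
    have ih := ih (by omega)
    intro v w hv hw hs j hj
    have hK : (D : ℝ) ≤ 4 ^ L * (1 + 4 * L) * D :=
      le_mul_of_one_le_left D.cast_nonneg (one_le_mul_of_one_le_of_one_le (one_le_pow₀
        (by norm_num)) (by linarith [L.cast_nonneg (α := ℝ)]))
    have hD1 : (0 : ℝ) ≤ D := D.cast_nonneg
    set K : ℝ := 4 ^ L * (1 + 4 * L) * D with hKd
    set T : ℝ := (5 * K) ^ s with hTd
    have hT : 0 ≤ T := by rw [hTd]; positivity
    have h1 : ∀ w, Al w → w.sum ≤ W → Hg θ T (D ^ s * E w) := fun w h h' =>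
      ((hθ w h h').nmul (D ^ s)).mono (by
        rw [mul_one, cast_pow]; exact pow_le_pow_left₀ hD1 (by linarith) s) (by simp)
    have no : ∀ u, ¬ Ev (1 :: u) := fun u h => by simpa using h 1 (by simp)
    have P1 : ∀ i < L, Ev (par v) ∨ Ev w → Hg θ T (D ^ s * Zp v w (i + 1)) := fun i hi h => by
      cases v with
      | nil => rw [Zp_nil]; exact h1 w hw (by omega)
      | cons c u =>
        rw [Zp_cons]
        exact (ih _ w hv.par hw (by have := hv.sum_par (by simp); omega) i hi).1 h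
    have W1 : ∀ i < L, Ev v ∨ Ev (par w) → Hg θ T (D ^ s * Zw v w (i + 1)) := fun i hi h => by
      unfold Zw
      split_ifs with e
      · simpa using hg_zero hT
      · exact (ih v _ hv hw.par (by have := hw.sum_par e; omega) i hi).1 h
    have dv : ∀ {z : ℝ}, (j + 1) * z = Zp v w (j + 1) - Zw v w (j + 1) → Ev (par v) ∨ Ev w →
        Ev v ∨ Ev (par w) → Hg θ ((5 * K) ^ (s + 1)) (D ^ (s + 1) * z) := fun {z} e h h' => by
      obtain ⟨k, hk⟩ := (dvd_mul_right _ _).trans (hD j hj)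
      have h2 : (k : ℝ) ≤ D := by exact_mod_cast Nat.le_of_dvd hD0 (Dvd.intro_left _ hk.symm)
      refine (((P1 j hj h).sub (W1 j hj h')).nmul k).mono (by rw [pow_succ]; nlinarith) ?_
      have h3 := congrArg (fun z : ℝ => (z : ℂ)) e
      have h4 : (D : ℂ) = (j + 1) * k := by exact_mod_cast hk
      push_cast at h3
      linear_combination (D : ℂ) ^ s * k * h3 + (D : ℂ) ^ s * z * h4
    have mx : (∀ i ≤ L, Hg θ (K * T) (D * D ^ s * Z v w i)) →
        Hg θ ((5 * K) ^ (s + 1)) (D ^ (s + 1) * Z v w (j + 1)) ∧ Hg θ ((5 * K) ^ (s + 1))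
          (D ^ (s + 1) * (4 * Z v w j - Z v w (j + 1) : ℝ)) := fun h =>
      ⟨(h _ hj).mono (by rw [pow_succ]; nlinarith) (by ring),
        (((h _ hj.le).nmul 4).sub (h _ hj)).mono (by rw [pow_succ]; push_cast; linarith)
          (by push_cast; ring)⟩
    rcases hv.imp id id with hv' | ⟨t, ht, rfl⟩ <;> rcases hw.imp id id with hw' | ⟨u, hu, rfl⟩
    · exact ⟨fun _ => dv (r_ee hv'.evH hw'.evH j) (Or.inr hw') (Or.inl hv'),
        fun h => absurd ⟨hv', hw'⟩ h⟩
    · obtain ⟨e, h2, h3, h4⟩ := transfer hv' u hu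
      have := mx fun i hi => solve hD0 hD hT (r_eo hv'.evH u)
        (h4 ▸ h1 e (Or.inl h2) (by simp at hs; omega)) (fun i hi => by
          refine ((W1 i hi (Or.inl hv')).sub (Q' := 3 * T) (z' := D ^ s *
            (4 * Zp v (1 :: u) i - Zp v (1 :: u) (i + 1) : ℝ)) ?_).mono (by linarith)
            (by push_cast; ring)
          cases v with
          | nil =>
            exact ((h1 _ hw (by omega)).nmul 3).mono (by simp) (by simp only [Zp_nil]; push_cast; ring)
          | cons c t =>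
            rw [Zp_cons, Zp_cons]
            exact ((ih _ _ hv.par hw (by have := hv.sum_par (by simp); omega) i hi).2
              fun h => no u h.2).mono (by linarith) rfl) hi
      exact ⟨fun _ => this.1, fun _ => this.2⟩
    · obtain ⟨e, h2, h3, h4⟩ := transfer ht w hw'
      have := mx fun i hi => solve hD0 hD hT (r_oe t hw'.evH)
        ((tr_od t w).trans h4 ▸ h1 e (Or.inl h2) (by simp at hs; omega)) (fun i hi => by
          refine (Hg.sub (Q := T) (z := D ^ s * (4 * Zw (1 :: t) w i - Zw (1 :: t) w (i + 1) : ℝ))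
            ?_ (P1 i hi (Or.inr hw'))).mono (by linarith) (by push_cast; ring)
          unfold Zw
          split_ifs with e
          · simpa using hg_zero hT
          · exact (ih _ _ hv hw.par (by have := hw.sum_par e; omega) i hi).2 fun h => no t h.1) hi
      exact ⟨fun _ => this.1, fun _ => this.2⟩
    · exact ⟨fun h => absurd h (not_or.2 ⟨no t, no u⟩),
        fun _ => dv (r_oo t u j) (Or.inl ht) (Or.inr hu)⟩

end height

/-- the coefficients of a power of the variable times a central binomial series -/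
noncomputable def cf (w : List ℕ) (i r : ℕ) : ℝ := if i ≤ r then fi w (r - i) else 0

theorem cf_nat {M a r : ℕ} {w : List ℕ} (i : ℕ) (hw : Al w) (ha : w.sum ≤ a) (hr : r < M) :
    ∃ c : ℕ, (c : ℝ) = (lcmUpto (2 * M) : ℝ) ^ (a + 1) * cf w i r ∧ c ≤ 2 ^ (17 * M * (a + 1)) := by
  unfold cf
  split_ifs
  swap
  · exact ⟨0, by simp, Nat.zero_le _⟩
  obtain ⟨c, hc⟩ := co_nat (2 * M) w (r - i) (by omega)
  obtain ⟨b, rfl⟩ := Nat.exists_eq_add_of_le ha
  obtain ⟨k, hk⟩ := cb_dvd (show r - i ≤ M by omega)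
  have e : ((lcmUpto (2 * M) ^ b * c * k : ℕ) : ℝ) =
      (lcmUpto (2 * M) : ℝ) ^ (w.sum + b + 1) * fi w (r - i) := by
    have h1 : (lcmUpto (2 * M) : ℝ) = centralBinom (r - i) * k := by exact_mod_cast hk
    have h2 := cb_pos (r - i)
    push_cast
    rw [hc, fi, pow_succ _ (_ + _)]
    nth_rewrite 4 [h1]
    field_simp
    ring
  refine ⟨_, e, ?_⟩
  have h3 : (lcmUpto (2 * M) : ℝ) ≤ 2 ^ (8 * (2 * M)) := by exact_mod_cast lcm_le (2 * M)
  have h4 : ((r - i : ℕ) : ℝ) + 1 ≤ 2 ^ M := by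
    exact_mod_cast (show r - i + 1 ≤ M by omega).trans Nat.lt_two_pow_self.le
  have h5 : w.length ≤ w.sum + b + 1 := (List.length_le_sum_of_one_le _ hw.pos).trans (by omega)
  have h7 : fi w (r - i) ≤ (2 ^ M) ^ (w.sum + b + 1) :=
    (fi_le w _).trans ((mul_le_of_le_one_right (by positivity)
      (pow_le_one₀ (by norm_num) (by norm_num))).trans ((pow_le_pow_left₀ (by positivity) h4 _).trans
      (pow_le_pow_right₀ (one_le_pow₀ one_le_two) h5)))
  have h8 : ((lcmUpto (2 * M) ^ b * c * k : ℕ) : ℝ) ≤ 2 ^ (17 * M * (w.sum + b + 1)) := by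
    rw [e]
    calc _ ≤ ((2 : ℝ) ^ (8 * (2 * M))) ^ (w.sum + b + 1) * (2 ^ M) ^ (w.sum + b + 1) := by
          gcongr
          exact fi_nonneg _ _
      _ = _ := by rw [← mul_pow, ← pow_add, ← pow_mul]; congr 1; ring
  exact_mod_cast h8

theorem hasSum_cf (v w : List ℕ) (i j : ℕ) :
    HasSum (fun r => cf w i r * mu v (r + j)) (Z v w (i + j)) := by
  rw [← hasSum_nat_add_iff' i, sum_eq_zero fun r hr => by simp [cf, mem_range.1 hr], sub_zero]
  refine (hZ (fun k => mu_bd v (k + (i + j))) w).congr_fun fun r => ?_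
  simp [cf, add_assoc]

theorem small (a : ℕ) : ∃ C : ℝ, 0 ≤ C ∧ ∀ (n M : ℕ) (X : ℝ) (J : ND a × Fin (n + 1) → ℤ),
    (∀ q, (|J q| : ℝ) ≤ X) → (∀ r < M, ∑ q, cf q.1 q.2 r * J q = 0) → ∀ v j,
      |∑ q : ND a × Fin (n + 1), Z v q.1 (q.2 + j) * J q| ≤
        C * ((3 / 4) ^ M * (Fintype.card (ND a) * (n + 1) * (2 ^ n * X))) := by
  have h0 := summable_pg (a + 1) (r := 2 / 3) (by norm_num) (by norm_num)
  set C := ∑' m : ℕ, ((m : ℝ) + 1) ^ (a + 1) * (2 / 3) ^ m
  have hC0 : 0 ≤ C := tsum_nonneg fun _ => by positivity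
  have hC : ∀ (w : ND a) k, fi w k ≤ C * (3 / 4) ^ k := fun w k => by
    have h1 := (List.length_le_sum_of_one_le _ (ND_al w).1.pos).trans (ND_al w).2
    have h2 : ((k : ℝ) + 1) ^ (a + 1) * (2 / 3) ^ k ≤ C := h0.le_tsum k fun _ _ => by positivity
    calc _ ≤ ((k : ℝ) + 1) ^ (a + 1) * (1 / 2) ^ k := (fi_le _ _).trans (by
          gcongr; linarith [k.cast_nonneg (α := ℝ)])
      _ = ((k : ℝ) + 1) ^ (a + 1) * (2 / 3) ^ k * (3 / 4) ^ k := by
          rw [mul_assoc, ← mul_pow]; norm_num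
      _ ≤ _ := by gcongr
  refine ⟨4 * C, by positivity, fun n M X J hJ he v j => ?_⟩
  have h1 : HasSum (fun r => (∑ q : ND a × Fin (n + 1), cf q.1 q.2 r * J q) * mu v (r + j))
      (∑ q : ND a × Fin (n + 1), Z v q.1 (q.2 + j) * J q) :=
    (hasSum_sum fun (q : ND a × Fin (n + 1)) _ =>
      (hasSum_cf v q.1 q.2 j).mul_right (J q : ℝ)).congr_fun fun r => by
        rw [sum_mul]
        exact sum_congr rfl fun q _ => by ring
  rw [← hasSum_nat_add_iff' M, sum_eq_zero (s := range M) fun r hr => by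
    rw [he r (mem_range.1 hr), zero_mul], sub_zero] at h1
  have h2 := (hasSum_geometric_of_lt_one (r := 3 / 4) (by norm_num) (by norm_num)).mul_left
    (C * ((3 / 4) ^ M * (Fintype.card (ND a) * (n + 1) * (2 ^ n * X))))
  refine (h1.norm_le_of_bounded h2 fun r => ?_).trans_eq (by ring)
  rw [norm_mul, Real.norm_of_nonneg (mu_bd _ _).1]
  refine (mul_le_of_le_one_right (norm_nonneg _) (mu_bd _ _).2).trans ((norm_sum_le _ _).trans
    ((sum_le_card_nsmul _ _ (C * (3 / 4) ^ (r + M) * 2 ^ n * X) fun q _ => ?_).trans_eq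
      (by simp; ring)))
  rw [norm_mul]
  refine mul_le_mul ?_ (hJ q) (norm_nonneg _) (by positivity)
  unfold cf
  split_ifs with h
  · obtain ⟨k, hk⟩ := Nat.exists_eq_add_of_le h
    rw [Real.norm_of_nonneg (fi_nonneg _ _), hk, Nat.add_sub_cancel_left]
    calc _ ≤ C * (3 / 4) ^ k * (3 / 4 * 2) ^ (q.2 : ℕ) := (hC _ _).trans
          (le_mul_of_one_le_right (by positivity) (one_le_pow₀ (by norm_num)))
      _ = C * (3 / 4) ^ (q.2 + k) * 2 ^ (q.2 : ℕ) := by rw [mul_pow]; ring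
      _ ≤ _ := by gcongr; exacts [one_le_two, Nat.le_of_lt_succ q.2.2]
  · simp only [norm_zero]; positivity

end Pool.Agent.Lib.MP_dda4e9_nt.RK
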