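import Pool.Agent.Lib.MP_dda4e9_nt.R.Node
import Pool.Agent.Lib.MP_dda4e9_nt.Arc

/-! The central binomial sums are combinations of shifted log-sine integrals. -/

namespace Pool.Agent.Lib.MP_dda4e9_nt.RK

open Real Filter Topology Set
open Complex (I)

/-- the central binomial series -/
noncomputable def Ph (w : List ℕ) (s : ℝ) : ℝ := ZZ w fun k => s ^ k

theorem Ph_deriv (w : List ℕ) {s : ℝ} (h0 : 0 ≤ s) (h1 : s ≤ 1) :
    ∃ D, HasDerivAt (Ph w) D s ∧ s * D = ZZ w fun k => k * s ^ k := by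
  refine ⟨_, hasDerivAt_tsum_of_isPreconnected
    (summable_pg (w.length + 1) (r := 3 / 4) (by norm_num) (by norm_num)) isOpen_Ioo
    (isPreconnected_Ioo (a := -(3 / 2)) (b := 3 / 2))
    (g := fun k y => fi w k * y ^ k) (g' := fun k y => fi w k * (k * y ^ (k - 1)))
    (fun k y _ => (hasDerivAt_pow k y).const_mul (fi w k)) (fun k y hy => ?_) (y₀ := 1)
    (by norm_num) (hZ (ν := fun k => 1 ^ k) (by simp) w).summable ⟨by linarith, by linarith⟩, ?_⟩
  · rw [norm_mul, norm_mul, norm_pow, norm_of_nonneg (fi_nonneg w k), norm_natCast]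
    have h2 : ‖y‖ ^ (k - 1) ≤ (3 / 2) ^ k :=
      (pow_le_pow_left₀ (norm_nonneg _) (abs_lt.2 hy).le _).trans
        (pow_le_pow_right₀ (by norm_num) (Nat.sub_le _ _))
    calc _ ≤ ((k : ℝ) + 1) ^ w.length * (1 / 2) ^ k * ((k + 1) * (3 / 2) ^ k) := by
          gcongr
          exacts [fi_le w k, by linarith]
      _ = _ := by rw [show (3 / 4 : ℝ) = 1 / 2 * (3 / 2) by norm_num, mul_pow]; ring
  · rw [ZZ, ← tsum_mul_left]
    exact tsum_congr fun k => by cases k <;> simp; ring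

theorem Ph_zero (a : ℕ) (u : List ℕ) : Ph (a :: u) 0 = 0 := by
  rw [Ph, ZZ, ← tsum_zero (β := ℕ)]
  exact tsum_congr fun k => by cases k <;> simp [fi_zero]

theorem Ph_nil (s : ℝ) : Ph [] s = 1 := by
  rw [Ph, ZZ, tsum_eq_single 0 fun k hk => by simp [fi, co, hk]]
  simp [fi, co]

theorem Ph_one (w : List ℕ) : Ph w 1 = E w := by simp [Ph, E]

theorem Ph_ev (c : ℕ) (u : List ℕ) {s : ℝ} (h0 : 0 < s) (h1 : s ≤ 1) :
    HasDerivAt (Ph ((c + 2) :: u)) (Ph ((c + 1) :: u) s / s) s := by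
  obtain ⟨D, h2, h3⟩ := Ph_deriv ((c + 2) :: u) h0.le h1
  rw [w_ev (Or.inr ⟨c, u, rfl⟩), if_neg (by simp), par, if_neg (by omega)] at h3
  exact h2.congr_deriv (eq_div_of_mul_eq h0.ne' ((mul_comm _ _).trans h3))

theorem Ph_od (u : List ℕ) {s : ℝ} (h0 : 0 ≤ s) (h1 : s ≤ 1) : ∃ D, HasDerivAt (Ph (1 :: u)) D s ∧
    (4 - s) * s * D = 2 * Ph (1 :: u) s + s * Ph u s := by
  obtain ⟨D, h2, h3⟩ := Ph_deriv (1 :: u) h0 h1
  have h4 := w_od (ν := fun k => s ^ k) (fun k => ⟨by positivity, pow_le_one₀ h0 h1⟩) u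
  have h5 : ∀ w (ν : ℕ → ℝ), (ZZ w fun k => ν k * s ^ (k + 1)) = s * ZZ w fun k => ν k * s ^ k :=
    fun w ν => by
      rw [ZZ, ZZ, ← tsum_mul_left]
      exact tsum_congr fun k => by ring
  have h6 := h5 u fun _ => 1
  simp only [one_mul] at h6
  rw [h5, h6, ← h3] at h4
  exact ⟨D, h2, by unfold Ph; linear_combination h4⟩

/-- the variable -/
noncomputable def ss (θ : ℝ) : ℝ := 2 - 2 * cos θ

theorem ss_eq (θ : ℝ) : ss θ = (2 * sin (θ / 2)) ^ 2 := by
  rw [ss, mul_pow, sin_sq_eq_half_sub, show 2 * (θ / 2) = θ by ring]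
  ring

theorem ss_pos {θ : ℝ} (h0 : 0 < θ) (h1 : θ ≤ π / 3) : 0 < ss θ := by
  have := sin_half_pos h0 h1
  rw [ss_eq]
  positivity

theorem ss_le {θ : ℝ} (h0 : 0 ≤ θ) (h1 : θ ≤ π / 3) : ss θ ≤ 1 := by
  have := cos_le_cos_of_nonneg_of_le_pi h0 (by linarith [pi_pos]) h1
  rw [cos_pi_div_three] at this
  unfold ss
  linarith

theorem ss_deriv (θ : ℝ) : HasDerivAt ss (2 * sin θ) θ := by
  exact (((hasDerivAt_cos θ).const_mul 2).const_sub 2).congr_deriv (by ring)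

theorem sin_pos' {θ : ℝ} (h0 : 0 < θ) (h1 : θ ≤ π / 3) : 0 < sin θ :=
  sin_pos_of_pos_of_lt_pi h0 (by linarith [pi_pos])

theorem sin_sq' (θ : ℝ) : (2 * sin θ) ^ 2 = ss θ * (4 - ss θ) := by
  rw [ss, mul_pow, sin_sq]
  ring

theorem ss_tend : Tendsto ss (𝓝[>] 0) (𝓝 0) := by
  simpa [ss] using (ss_deriv 0).continuousAt.tendsto.mono_left (nhdsWithin_le_nhds (s := Ioi 0))

theorem quot (a : ℕ) (u : List ℕ) :
    ∃ D, Tendsto (fun θ => Ph (a :: u) (ss θ) / ss θ) (𝓝[>] 0) (𝓝 D) := by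
  obtain ⟨D, h, -⟩ := Ph_deriv (a :: u) le_rfl zero_le_one
  refine ⟨D, ((hasDerivAt_iff_tendsto_slope.1 h).comp
    (tendsto_nhdsWithin_iff.2 ⟨ss_tend, ?_⟩)).congr fun θ => by simp [slope_def_field, Ph_zero]⟩
  filter_upwards [Ioo_mem_nhdsGT c_pos] with θ hθ using (ss_pos hθ.1 hθ.2.le).ne'

/-- the even functions -/
noncomputable def ee (u : List ℕ) (θ : ℝ) : ℝ := Ph u (ss θ)

/-- the odd functions -/
noncomputable def oo (u : List ℕ) (θ : ℝ) : ℝ := Ph (1 :: u) (ss θ) / ss θ * (2 * sin θ)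

theorem oo_deriv (u : List ℕ) {θ : ℝ} (h0 : 0 < θ) (h1 : θ ≤ π / 3) :
    HasDerivAt (oo u) (ee u θ) θ := by
  have h2 := ss_pos h0 h1
  obtain ⟨D, h3, h4⟩ := Ph_od u h2.le (ss_le h0.le h1)
  refine (((h3.comp θ (ss_deriv θ)).div (ss_deriv θ) h2.ne').mul
    ((hasDerivAt_sin θ).const_mul 2)).congr_deriv ?_
  have h5 : 2 * cos θ = 2 - ss θ := by rw [ss]; ring
  simp only [ee, Function.comp, Pi.div_apply, h5]
  field_simp
  linear_combination (D * ss θ - Ph (1 :: u) (ss θ)) * sin_sq' θ + ss θ * h4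

theorem ee_deriv (c : ℕ) (u : List ℕ) {θ : ℝ} (h0 : 0 < θ) (h1 : θ ≤ π / 3) :
    HasDerivAt (ee ((c + 2) :: u)) (Ph ((c + 1) :: u) (ss θ) / ss θ * (2 * sin θ)) θ :=
  (Ph_ev c u (ss_pos h0 h1) (ss_le h0.le h1)).comp θ (ss_deriv θ)

theorem oo_tend (u : List ℕ) : Tendsto (oo u) (𝓝[>] 0) (𝓝 0) := by
  obtain ⟨D, h⟩ := quot 1 u
  have := h.mul (((continuous_sin.const_mul 2).tendsto 0).mono_left nhdsWithin_le_nhds)
  rwa [sin_zero, mul_zero, mul_zero] at this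

theorem ee_tend (a : ℕ) (u : List ℕ) : Tendsto (ee (a :: u)) (𝓝[>] 0) (𝓝 0) := by
  obtain ⟨D, h, -⟩ := Ph_deriv (a :: u) le_rfl zero_le_one
  have := h.continuousAt.tendsto.comp ss_tend
  rwa [Ph_zero] at this

theorem A_tend (a : ℕ) (u : List ℕ) :
    Tendsto (fun θ => 2 * A θ * ee (a :: u) θ) (𝓝[>] 0) (𝓝 0) := by
  obtain ⟨D, h⟩ := quot a u
  have h1 := h.mul ((continuous_mul_log.tendsto 0).comp ss_tend)
  simp only [log_zero, mul_zero] at h1
  refine h1.congr' ?_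
  filter_upwards [Ioo_mem_nhdsGT c_pos] with θ hθ
  have h2 := ss_pos hθ.1 hθ.2.le
  have h3 : log (ss θ) = 2 * A θ := by rw [ss_eq, log_pow, A, log_abs]; norm_num
  simp only [Function.comp, ee, h3]
  field_simp

theorem pr_real {f G : ℝ → ℝ} (z : ℂ) (h : ∀ θ, 0 < θ → θ ≤ π / 3 → HasDerivAt G (f θ) θ)
    (h0 : Tendsto G (𝓝[>] 0) (𝓝 0)) : Pr (fun θ => z * f θ) fun θ => z * G θ :=
  Pr.const_mul ⟨fun θ hθ => (h θ hθ.1 hθ.2.le).ofReal_comp, by simpa using h0.ofReal⟩ z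

theorem P_int {w : ℕ} {f G : ℝ → ℂ} (h : P w w f ∨ ∃ k, w = k + 1 ∧ Q k k f)
    (hG : Pr (fun θ => I * f θ) G) : P (w + 1) (w + 1) G := by
  rcases h with ⟨b, hb, h⟩ | ⟨k, rfl, b₁, hb₁, b₂, hb₂, h⟩
  · obtain ⟨b', hb', h'⟩ := prim_one hb
    exact ⟨b', B_mono w.le_succ hb',
      (hG.congr fun θ hθ => by simp only [Pi.mul_apply, h hθ]).unique h'⟩
  · obtain ⟨c₁, hc₁, h₁⟩ := prim_A hb₁
    obtain ⟨c₂, hc₂, h₂⟩ := prim_one hb₂
    refine ⟨c₁ + c₂, B_mono (k + 1).le_succ (add_mem hc₁ hc₂),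
      (hG.congr fun θ hθ => ?_).unique (h₁.add h₂)⟩
    simp only [Pi.mul_apply, Pi.add_apply, h hθ]
    ring

theorem ee_mem {u : List ℕ} (hu : Ev u) :
    P u.sum u.sum (fun θ => ee u θ) ∨ ∃ k, u.sum = k + 1 ∧ Q k k fun θ => ee u θ := by
  induction u with
  | nil => exact Or.inl ⟨gf 0 0 0 [], gf_mem le_rfl (by simp) rfl, fun θ _ => by
      simp [ee, Ph_nil, gf, F]⟩
  | cons c u ih =>
    have h1 := P_int (ih hu.tail) (pr_real I (fun θ => oo_deriv u) (oo_tend u))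
    obtain ⟨b, hb, h2⟩ := P_int (Or.inl h1) ((pr_real (-1) (fun θ => ee_deriv 0 u)
      (ee_tend 2 u)).congr fun θ _ => by
        beta_reduce; rw [← mul_assoc I, Complex.I_mul_I]; rfl)
    rcases hu c (by simp) with rfl | rfl
    · refine Or.inl ⟨-b, by rw [List.sum_cons, add_comm]; exact neg_mem hb, fun θ hθ => ?_⟩
      simp [← h2 hθ]
    · obtain ⟨a, ha, h3⟩ := h1
      obtain ⟨a', ha', h4⟩ := prim_A ha
      refine Or.inr ⟨u.sum + 2, by rw [List.sum_cons]; ring, (-2 : ℚ) • b,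
        Submodule.smul_mem _ _ hb, (2 : ℚ) • a',
        Submodule.smul_mem _ _ (B_mono (Nat.le_succ _) ha'), fun θ hθ => ?_⟩
      have h5 := ((pr_real (f := fun θ => -(2 * A θ * oo u θ))
        (G := fun θ => ee (3 :: u) θ - 2 * A θ * ee (2 :: u) θ) 1 (fun θ h0 h1 => ?_)
        (by simpa using (ee_tend 3 u).sub (A_tend 2 u))).congr fun θ hθ => ?_).unique
        (h4.smul 2) hθ
      · simp only [Pi.smul_apply, Rat.smul_def, ← h2 hθ] at h5 ⊢
        push_cast at h5 ⊢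
        linear_combination h5
      · refine ((ee_deriv 1 u h0 h1).sub (((hasDerivAt_A h0 h1).const_mul 2).mul
          (ee_deriv 0 u h0 h1))).congr_deriv ?_
        have h6 := sin_half_pos h0 h1
        have h7 : sin θ = 2 * sin (θ / 2) * cos (θ / 2) := by
          rw [← sin_two_mul]; congr 1; ring
        have h8 : 2 * sin θ / ss θ = 2 * (cos (θ / 2) / (2 * sin (θ / 2))) := by
          rw [h7, ss_eq]; field_simp
        rw [← h8, ee, oo]
        ring
      · simp only [Pi.smul_apply, Pi.mul_apply, Rat.smul_def, ← h3 hθ]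
        push_cast
        linear_combination -2 * (A θ : ℂ) * oo u θ * Complex.I_mul_I

/-- the values at the end point -/
noncomputable def V (w : ℕ) : Submodule ℚ ℂ := (B w w).map (LinearMap.proj (π / 3))

theorem val_eq {f b : ℝ → ℂ} (hf : ContinuousWithinAt f (Icc 0 (π / 3)) (π / 3))
    (hb : ContinuousWithinAt b (Icc 0 (π / 3)) (π / 3)) (h : EqOn f b (Ioo 0 (π / 3))) :
    f (π / 3) = b (π / 3) := by
  have h1 := nhdsWithin_le_of_mem (Icc_mem_nhdsLT c_pos)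
  refine tendsto_nhds_unique ((hf.tendsto.mono_left h1).congr' ?_) (hb.tendsto.mono_left h1)
  filter_upwards [Ioo_mem_nhdsLT c_pos] with θ hθ using h hθ

theorem ss_end : ss (π / 3) = 1 := by rw [ss, cos_pi_div_three]; norm_num

theorem c_mem : π / 3 ∈ Icc 0 (π / 3) := right_mem_Icc.2 c_pos.le

theorem E_ev {u : List ℕ} (hu : Ev u) : (E u : ℂ) ∈ V u.sum := by
  obtain ⟨D, h1, -⟩ := Ph_deriv u zero_le_one le_rfl
  have h2 : ContinuousWithinAt (fun θ => (ee u θ : ℂ)) (Icc 0 (π / 3)) (π / 3) :=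
    ((ss_end ▸ h1).comp _ (ss_deriv _)).ofReal_comp.continuousAt.continuousWithinAt
  have h3 : (E u : ℂ) = ee u (π / 3) := by rw [ee, ss_end, Ph_one]
  rcases ee_mem hu with ⟨b, hb, h⟩ | ⟨k, hk, b₁, hb₁, b₂, hb₂, h⟩
  · exact ⟨b, hb, (h3.trans (val_eq h2 (contOn_B hb _ c_mem) h)).symm⟩
  · refine ⟨b₂, hk ▸ hb₂, ?_⟩
    have := val_eq h2 (((hasDerivAt_A c_pos le_rfl).ofReal_comp.continuousAt.continuousWithinAt.mul
      (contOn_B hb₁ _ c_mem)).add (contOn_B hb₂ _ c_mem)) h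
    simpa [A_end, h3] using this.symm

theorem E_od {u : List ℕ} (hu : Ev u) : I * (√3 : ℝ) * E (1 :: u) ∈ V (u.sum + 1) := by
  obtain ⟨b, hb, h⟩ := P_int (ee_mem hu) (pr_real I (fun θ => oo_deriv u) (oo_tend u))
  refine ⟨b, hb, (val_eq ((oo_deriv u c_pos le_rfl).ofReal_comp.const_mul
    I).continuousAt.continuousWithinAt (contOn_B hb _ c_mem) h).symm.trans ?_⟩
  rw [oo, ss_end, Ph_one, sin_pi_div_three]
  push_cast
  ring

theorem mul_gen {w d : ℕ} {b : ℝ → ℂ} (hb : b ∈ B w d) (m j : ℕ) :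
    (fun θ : ℝ => I ^ (m + j) * ((π ^ m * (θ - π / 3) ^ j : ℝ) : ℂ)) * b ∈ B (w + (m + j)) d := by
  induction hb using Submodule.span_induction with
  | mem x hx =>
    obtain ⟨m', j', k, h1, h2, rfl, rfl⟩ := hx
    convert gf_mem (w := m' + j' + k.sum + (m + j)) (m := m' + m) (j := j' + j) h1 h2 (by omega)
      using 1
    funext θ
    simp only [gf, Pi.mul_apply]
    push_cast
    ring
  | zero => simp
  | add x y _ _ hx hy => rw [mul_add]; exact add_mem hx hy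
  | smul q x _ hx => rw [mul_smul_comm]; exact Submodule.smul_mem _ _ hx

theorem mul_F {k : List ℕ} (hk : ∀ a ∈ k, 2 ≤ a) : P (k.sum + 2) (k.length + 1)
    fun θ => I ^ (k.sum + k.length + 1) * ((F [2] θ * F k θ : ℝ) : ℂ) := by
  induction k with
  | nil =>
    refine ⟨-gf 2 0 0 [2], neg_mem (gf_mem le_rfl (by simp) rfl), fun θ _ => ?_⟩
    simp [gf, show F [] θ = 1 from rfl, pow_succ]
  | cons a k ih =>
    obtain ⟨b, hb, h⟩ := ih fun x hx => hk x (by simp [hx])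
    obtain ⟨e, rfl⟩ := Nat.exists_eq_add_of_le' (hk a (by simp))
    obtain ⟨c₁, hc₁, h₁⟩ := prim_A (gf_mem (w := e + 2 + k.sum) (m := 0) (j := 0) le_rfl hk
      (by simp))
    obtain ⟨c₂, hc₂, h₂⟩ := prim_A (mul_gen hb 0 e)
    refine ⟨c₁ + (-1 : ℚ) • c₂, add_mem hc₁ (Submodule.smul_mem _ _ (by
      rwa [List.sum_cons, show e + 2 + k.sum = k.sum + 2 + (0 + e) by ring])),
      Pr.unique ⟨fun θ hθ => ?_, ?_⟩ (h₁.add (h₂.smul (-1)))⟩
    · refine (((hasDerivAt_F 2 [] hθ).mul (hasDerivAt_F (e + 2) k hθ)).ofReal_comp.const_mul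
        _).congr_deriv ?_
      simp only [Pi.add_apply, Pi.smul_apply, Pi.mul_apply, Rat.smul_def, ← h hθ, gf,
        List.sum_cons, List.length_cons, Nat.add_sub_cancel, show F [] θ = 1 from rfl]
      push_cast
      linear_combination I ^ (e + k.sum + k.length + 2) * (θ - π / 3) ^ e * A θ * F [2] θ * F k θ *
        Complex.I_sq
    · exact tendsto_of_contOn (continuousOn_const.mul (Complex.continuous_ofReal.comp_continuousOn
        ((contOn_F _).mul (contOn_F _)))) (by simp [F_zero])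

theorem V_pi {j : ℕ} {z : ℂ} (h : z ∈ V j) (m : ℕ) : (I * π) ^ m * z ∈ V (j + m) := by
  obtain ⟨b, hb, rfl⟩ := h
  exact ⟨_, B_mono (Nat.le_add_right j m) (mul_gen hb m 0), by simp [mul_pow]⟩

theorem V_F {j : ℕ} {z : ℂ} (h : z ∈ V j) : I * F [2] (π / 3) * z ∈ V (j + 2) := by
  obtain ⟨b, hb, rfl⟩ := h
  induction hb using Submodule.span_induction with
  | mem x hx =>
    obtain ⟨m, i, k, h1, h2, rfl, rfl⟩ := hx
    obtain ⟨b, hb, h⟩ := mul_F h2
    refine ⟨_, B_mono (d := k.length + 1) (by omega) (by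
      rw [show m + i + k.sum + 2 = k.sum + 2 + (m + i) by ring]; exact mul_gen hb m i), ?_⟩
    have := val_eq (continuousOn_const.mul (Complex.continuous_ofReal.comp_continuousOn
        ((contOn_F _).mul (contOn_F _))) _ c_mem) (contOn_B hb _ c_mem) h
    simp only [LinearMap.proj_apply, Pi.mul_apply, ← this, gf, Function.comp]
    push_cast
    ring
  | zero => simp
  | add x y _ _ hx hy => rw [map_add, mul_add]; exact add_mem hx hy
  | smul q x _ hx => rw [map_smul, mul_smul_comm]; exact Submodule.smul_mem _ _ hx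

theorem F_ne : F [2] (π / 3) ≠ 0 := by
  have := intervalIntegral.intervalIntegral_pos_of_pos_on intInt_A.neg (fun θ hθ => ?_) c_pos
  · simp only [Pi.neg_apply, intervalIntegral.integral_neg] at this
    simpa [F] using (neg_pos.1 this).ne
  · have h1 := sin_half_pos hθ.1 hθ.2.le
    have h2 := sin_lt_sin_of_lt_of_le_pi_div_two (x := θ / 2) (y := π / 6)
      (by linarith [pi_pos, hθ.1]) (by linarith [pi_pos]) (by linarith [hθ.2])
    rw [sin_pi_div_six] at h2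
    rw [Pi.neg_apply, neg_pos, A, log_abs]
    exact log_neg (by positivity) (by linarith)

end Pool.Agent.Lib.MP_dda4e9_nt.RK
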