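import Pool.Agent.Lib.MP_dda4e9_nt.R.Arith
import Pool.Agent.Lib.MP_dda4e9_nt.R.Link
import Pool.Agent.Lib.MP_dda4e9_nt.LbM

/-! The lower bound for the rank of the shifted log-sine integrals. -/

namespace Pool.Agent.Lib.MP_dda4e9_nt.RK

open Finset Module Filter Topology LB
open Complex (I)

theorem E_nil : E [] = 1 := by rw [← Ph_one, Ph_nil]

/-- the scaled linear forms attached to the small solutions of the vanishing conditions -/
def Fm (h n M X D : ℕ) : Set ℂ := {f | ∃ J : ND (h + 3) × Fin (n + 1) → ℤ, (∀ p, |J p| ≤ X) ∧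
  (∀ r < M, ∑ p, cf p.1 p.2 r * J p = 0) ∧ ∃ v : ND h, ∃ j < n,
    f = D * ∑ p : ND (h + 3) × Fin (n + 1),
      ((4 * Z v p.1 (p.2 + j + 1) - Z v p.1 (p.2 + j + 1 + 1) : ℝ) : ℂ) * J p}

theorem one_mem {h q n D : ℕ} (hq : 2 ≤ q) (hH : q * q ≤ Fintype.card (ND h))
    (hn : 3 * (Fintype.card (ND h) + Fintype.card (ND (h + 3))) ^ 2 ≤ n)
    (hP : Fintype.card (ND (h + 3)) * (n + 1) ≤ 2 ^ (2 * n)) (hD : D ≠ 0) :
    (1 : ℂ) ∈ Submodule.span ℚ (Fm h n (q * n) (2 ^ ((34 * (h + 5) + 4) * n) - 1) D) := by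
  by_contra h0
  obtain ⟨φ, h1, h2⟩ := Submodule.exists_le_ker_of_notMem h0
  let Λ : ℂ →+ ℂ := (Algebra.linearMap ℚ ℂ ∘ₗ φ).toAddMonoidHom
  have hΛ : ∀ (k : ℤ) z, Λ (k * z) = k * Λ z := fun k z => by
    simpa only [zsmul_eq_mul] using map_zsmul Λ k z
  have hz := zero_est (rec_Z.map Λ) (by
    have := hΛ 3 1
    simp only [TR, if_true, E_nil, Complex.ofReal_one]
    rw [Int.cast_ofNat] at this
    rw [this]
    simpa [Λ] using h1) (card_lt h) hn
  choose c hc1 hc2 using fun (r : Fin (q * n)) (p : ND (h + 3) × Fin (n + 1)) =>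
    cf_nat (a := h + 4) p.2 (ND_al p.1).1 (ND_al p.1).2 r.2
  have h4 := count _ hz c (2 ^ ((34 * (h + 5) + 4) * n) - 1)
    (2 ^ (2 * n) * 2 ^ (17 * (q * n) * (h + 5)))
    (fun r => (sum_le_card_nsmul _ _ _ fun p _ => hc2 r p).trans (by
      simpa using hP)) fun J hJ he k => by
      have h5 : ∀ r < q * n, ∑ p : ND (h + 3) × Fin (n + 1), cf p.1 p.2 r * J p = 0 :=
        fun r hr => by
          have := congrArg (Int.cast (R := ℝ)) (he ⟨r, hr⟩)
          simp only [Int.cast_sum, Int.cast_mul, Int.cast_natCast, hc1, mul_assoc, ← mul_sum,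
            Int.cast_zero] at this
          exact (mul_eq_zero.1 this).resolve_left
            (pow_ne_zero _ (Nat.cast_ne_zero.2 (Nat.lcmUpto_ne_zero _)))
      have h6 : Λ _ = 0 := congrArg (algebraMap ℚ ℂ) (LinearMap.mem_ker.1
        (h2 (Submodule.subset_span ⟨J, hJ, h5, k.1, k.2, k.2.2, rfl⟩))) |>.trans (map_zero _)
      rw [← nsmul_eq_mul, map_nsmul, map_sum, smul_eq_zero_iff_right hD] at h6
      rw [← mul_zero (((-1) ^ k.1.1.sum : ℤ) : ℂ), ← h6, mul_sum]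
      refine sum_congr rfl fun p _ => ?_
      have e1 := hΛ ((-1) ^ k.1.1.sum)
      have e2 := hΛ 4
      push_cast at e1 e2 ⊢
      rw [e1, e1, mul_comm (_ - _) (J p : ℂ), mul_comm (_ - _) (J p : ℂ), hΛ, map_sub, e2]
      ring
  have h5 : 1 ≤ 2 ^ ((34 * (h + 5) + 4) * n) := Nat.one_le_two_pow
  have h6 : 2 ^ (2 * n) * 2 ^ (17 * (q * n) * (h + 5)) * (2 ^ ((34 * (h + 5) + 4) * n) - 1) + 1 ≤
      2 ^ ((2 + 17 * q * (h + 5) + (34 * (h + 5) + 4)) * n) := by
    rw [show (2 + 17 * q * (h + 5) + (34 * (h + 5) + 4)) * n =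
      2 * n + 17 * (q * n) * (h + 5) + (34 * (h + 5) + 4) * n by ring, pow_add, pow_add]
    conv_rhs => rw [← Nat.sub_add_cancel h5, mul_add, mul_one]
    exact Nat.add_le_add_left (Nat.succ_le_of_lt (by positivity)) _
  rw [Nat.sub_add_cancel h5] at h4
  have h7 := h4.trans (Nat.pow_le_pow_left h6 _)
  rw [← pow_mul, ← pow_mul, Nat.pow_le_pow_iff_right one_lt_two, Fintype.card_prod,
    Fintype.card_fin, Fintype.card_fin] at h7
  have h8 : 0 < n := by
    have := card_lt h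
    exact lt_of_lt_of_le (Nat.mul_pos three_pos (pow_pos (by omega) 2)) hn
  have h9 : (34 * (h + 5) + 4) * q ≤ 2 + 17 * q * (h + 5) + (34 * (h + 5) + 4) :=
    Nat.le_of_mul_le_mul_right (c := q * n * n) (by
      have := Nat.mul_le_mul_left ((34 * (h + 5) + 4) * n) (Nat.mul_le_mul_right n hH)
      linarith) (by positivity)
  nlinarith [Nat.mul_le_mul_left (h + 5) hq]

theorem main {g d : ℕ} (hg : 1 ≤ g) (hd : finrank ℚ (Submodule.span ℚ
    (Set.range fun e : ND (10 * g + 8) => (E e : ℂ))) ≤ d) :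
    2 ^ g ≤ 3 * (890 * (g + 1) * (d + 1)) := by
  have hq : 2 ≤ 2 ^ g := by simpa using Nat.pow_le_pow_right two_pos hg
  have hH : 2 ^ g * 2 ^ g ≤ Fintype.card (ND (5 * g + 1)) := by
    have := card_pow g
    rw [← mul_pow, card_ND]
    exact this.trans (by omega)
  generalize 2 ^ g = q at *
  obtain ⟨c, hc, hc1⟩ := siegel _ d hd (Submodule.subset_span ⟨(TR _).rt, by simp [TR, E_nil]⟩)
  obtain ⟨C, hC, hC1⟩ := small (5 * g + 1 + 3)
  have hN := card_lt (5 * g + 1)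
  have key : ∀ n, 3 * (Fintype.card (ND (5 * g + 1)) + Fintype.card (ND (5 * g + 1 + 3))) ^ 2 ≤ n →
      1 ≤ c * (5 * C) * (2 ^ (890 * (g + 1) * (d + 1)) * (3 / 4 : ℝ) ^ q) ^ n := fun n hn => by
    have hn1 : 32 ≤ n := by nlinarith
    have hP : Fintype.card (ND (5 * g + 1 + 3)) * (n + 1) ≤ 2 ^ (2 * n) := by
      rw [two_mul, pow_add]
      exact Nat.mul_le_mul (le_trans (by nlinarith) n.lt_two_pow_self.le) n.lt_two_pow_self
    have hP' : (Fintype.card (ND (5 * g + 1 + 3)) : ℝ) * (n + 1) ≤ 2 ^ (2 * n) := by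
      exact_mod_cast hP
    set D := Nat.lcmUpto (2 * (2 * n + 1)) ^ 2 with hDd
    have hD0 : 0 < D := pow_pos (Nat.lcmUpto_pos _) _
    have hL : (D : ℝ) ≤ 2 ^ (65 * n) := by
      exact_mod_cast (Nat.pow_le_pow_left (lcm_le _) 2).trans
        (by rw [← pow_mul]; exact Nat.pow_le_pow_right two_pos (by omega))
    have h5 : (5 : ℝ) ≤ 2 ^ n := le_trans (by norm_num) (pow_le_pow_right₀ one_le_two hn1)
    have hK : 5 * (4 ^ (2 * n + 1) * (1 + 4 * ((2 * n + 1 : ℕ) : ℝ)) * D) ≤ 2 ^ (72 * n) := by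
      have h1 : (1 + 4 * ((2 * n + 1 : ℕ) : ℝ)) ≤ 2 ^ (n + 3) := by
        have := n.lt_two_pow_self
        exact_mod_cast (show 1 + 4 * (2 * n + 1) ≤ 2 ^ (n + 3) by rw [pow_add]; omega)
      calc _ ≤ 2 ^ 3 * ((2 ^ 2) ^ (2 * n + 1) * 2 ^ (n + 3) * 2 ^ (65 * n) : ℝ) := by
            gcongr <;> norm_num
        _ = 2 ^ (70 * n + 8) := by rw [← pow_mul]; ring
        _ ≤ _ := pow_le_pow_right₀ one_le_two (by omega)
    set X := 2 ^ ((34 * (5 * g + 1 + 5) + 4) * n) - 1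
    have hX : (X : ℝ) ≤ 2 ^ ((170 * g + 208) * n) := by
      exact_mod_cast (Nat.sub_le _ _).trans_eq (by ring)
    have h1 := hc1 (2 ^ (890 * (g + 1) * n)) (5 * C * (2 ^ (890 * (g + 1) * n) * (3 / 4) ^ (q * n)))
      (one_le_pow₀ one_le_two) (by positivity) _ ?_
      (one_mem (D := D ^ (10 * g + 8)) hq hH hn hP (pow_ne_zero _ hD0.ne'))
    · refine h1.trans_eq ?_
      rw [mul_pow, ← pow_mul, ← pow_mul, ← pow_mul, show 890 * (g + 1) * (d + 1) * n =
        890 * (g + 1) * n * d + 890 * (g + 1) * n by ring, pow_add]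
      ring
    rintro _ ⟨J, hJ, he, v, j, hj, rfl⟩
    have hJ' : ∀ p, (|J p| : ℝ) ≤ X := fun p => by exact_mod_cast hJ p
    constructor
    · have h2 := hC1 n (q * n) X J hJ' he v (j + 1)
      have h3 := hC1 n (q * n) X J hJ' he v (j + 1 + 1)
      have h4 : ∑ p : ND (5 * g + 1 + 3) × Fin (n + 1),
          ((4 * Z v p.1 (p.2 + j + 1) - Z v p.1 (p.2 + j + 1 + 1) : ℝ) : ℂ) * J p =
          ((4 * ∑ p : ND (5 * g + 1 + 3) × Fin (n + 1), Z v p.1 (p.2 + (j + 1)) * J p -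
            ∑ p : ND (5 * g + 1 + 3) × Fin (n + 1), Z v p.1 (p.2 + (j + 1 + 1)) * J p : ℝ) : ℂ) := by
        rw [mul_sum, ← sum_sub_distrib, Complex.ofReal_sum]
        exact sum_congr rfl fun p _ => by simp only [← add_assoc]; push_cast; ring
      rw [h4, norm_mul, Complex.norm_natCast, Nat.cast_pow, Complex.norm_real, Real.norm_eq_abs]
      calc _ ≤ (2 ^ (65 * n)) ^ (10 * g + 8) * (5 * (C * ((3 / 4) ^ (q * n) *
            (2 ^ (2 * n) * (2 ^ n * 2 ^ ((170 * g + 208) * n)))))) := by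
            refine mul_le_mul (by gcongr) ((abs_sub _ _).trans ?_) (abs_nonneg _) (by positivity)
            rw [abs_mul, Nat.abs_ofNat]
            refine ((add_le_add (mul_le_mul_of_nonneg_left h2 (by norm_num)) h3).trans_eq
              (add_one_mul _ _).symm).trans ?_
            gcongr
            norm_num
        _ = 5 * C * (2 ^ ((820 * g + 731) * n) * (3 / 4 : ℝ) ^ (q * n)) := by ring
        _ ≤ _ := by
            gcongr
            · exact one_le_two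
            · omega
    · have h6 := fun (p : ND (5 * g + 1 + 3)) => integ (θ := fun e : ND (10 * g + 8) => (E e : ℂ))
        (L := 2 * n + 1) hD0 (fun i hi => by
          rw [hDd, sq]
          exact mul_dvd_mul (dvd_lcm' i.succ_pos (by omega)) (cb_dvd hi))
        (fun w h1 h2 => hg_base (θ := fun e : ND (10 * g + 8) => (E e : ℂ)) ⟨w, al_mem h1 h2⟩)
        _ le_rfl v p (ND_al v).1 (ND_al p).1 (by have := (ND_al v).2; have := (ND_al p).2; omega)
      set K := (5 * (4 ^ (2 * n + 1) * (1 + 4 * ((2 * n + 1 : ℕ) : ℝ)) * D)) ^ (10 * g + 8)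
      have hK0 : 0 ≤ K := by positivity
      have hK1 : K ≤ (2 ^ (72 * n)) ^ (10 * g + 8) := pow_le_pow_left₀ (by positivity) hK _
      have h2 := Hg.sum (s := univ) (θ := fun e : ND (10 * g + 8) => (E e : ℂ))
        (Q := X * (2 ^ n * (2 ^ (72 * n)) ^ (10 * g + 8)))
        fun (p : ND (5 * g + 1 + 3) × Fin (n + 1)) _ =>
          (Hg.mul (Q := 5 * K) (z := D ^ (10 * g + 8) *
            ((4 * Z v p.1 (p.2 + j + 1) - Z v p.1 (p.2 + j + 1 + 1) : ℝ) : ℂ)) (by
              by_cases e : Ev v ∧ Ev p.1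
              · exact ((((h6 p.1 (p.2 + j) (by omega)).1 (Or.inl e.1)).nmul 4).sub
                  ((h6 p.1 (p.2 + j + 1) (by omega)).1 (Or.inl e.1))).mono
                  (by push_cast; linarith) (by push_cast; ring)
              · exact ((h6 p.1 (p.2 + j + 1) (by omega)).2 e).mono (by linarith) rfl)
            (J p)).mono (by gcongr; exact hJ' p) rfl
      obtain ⟨l, h3, h4⟩ := h2
      refine ⟨l, fun i => (single_le_sum (f := fun i => (|l i| : ℝ)) (fun _ _ => abs_nonneg _)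
        (mem_univ i)).trans (h3.trans ?_), ?_⟩
      · calc _ ≤ 2 ^ (2 * n) * (2 ^ ((170 * g + 208) * n) *
              (2 ^ n * (2 ^ (72 * n) : ℝ) ^ (10 * g + 8))) := by
              gcongr
              simpa using hP'
          _ = 2 ^ ((890 * g + 787) * n) := by ring
          _ ≤ _ := by
              gcongr
              · exact one_le_two
              · omega
      · rw [← h4, mul_sum]
        exact sum_congr rfl fun p _ => by push_cast; ring
  have h1 : (1 : ℝ) ≤ 2 ^ (890 * (g + 1) * (d + 1)) * (3 / 4) ^ q := by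
    by_contra h1
    have h2 := (tendsto_pow_atTop_nhds_zero_of_lt_one (by positivity) (not_le.1 h1)).const_mul
      (c * (5 * C))
    have h3 := ge_of_tendsto h2 (eventually_atTop.2 ⟨_, key⟩)
    norm_num at h3
  have h2 : (2 : ℝ) ^ q ≤ 2 ^ (3 * (890 * (g + 1) * (d + 1))) := by
    calc (2 : ℝ) ^ q ≤ 2 ^ q * (2 ^ (890 * (g + 1) * (d + 1)) * (3 / 4) ^ q) ^ 3 :=
          le_mul_of_one_le_right (by positivity) (one_le_pow₀ h1)
      _ = 2 ^ (3 * (890 * (g + 1) * (d + 1))) * (2 * (3 / 4) ^ 3) ^ q := by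
          rw [mul_pow, mul_pow, ← pow_mul, ← pow_mul, ← pow_mul, mul_comm q, mul_comm _ 3,
            mul_left_comm]
      _ ≤ _ := mul_le_of_le_one_right (by positivity) (pow_le_one₀ (by norm_num) (by norm_num))
  exact (pow_le_pow_iff_right₀ one_lt_two).1 h2

instance (w d : ℕ) : FiniteDimensional ℚ (Submodule.span ℚ (Se w d)) :=
  FiniteDimensional.span_of_finite ℚ ((Set.finite_range
    fun p : (Σ m : Fin (w + 1), Composition (w - m)) =>
      Real.pi ^ (p.1 : ℕ) * F p.2.blocks (Real.pi / 3)).subset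
    fun _ ⟨m, k, _, _, h1, h2, h3⟩ => ⟨⟨⟨m, by omega⟩, ⟨k, fun h => by have := h1 _ h; omega,
      by simp only; omega⟩⟩, h3.symm⟩)

theorem V_dim (k : ℕ) : FiniteDimensional ℚ (V k) ∧
    finrank ℚ (V k) ≤ 2 * finrank ℚ (Submodule.span ℚ (Se (k + 2) (k + 2))) := by
  have h1 : ∀ z ∈ V (k + 2), gl (k + 2) z ∈ Submodule.span ℚ (Se (k + 2) (k + 2)) := by
    rintro _ ⟨b, hb, rfl⟩
    have := eval_B hb
    unfold gl
    split_ifs at this ⊢ <;> exact this
  have h2 : Function.Injective (LinearMap.prod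
      ((gl (k + 2) ∘ₗ LinearMap.mulLeft ℚ ((I * Real.pi) ^ 2)).restrict fun z hz =>
        h1 _ (V_pi (j := k) hz 2))
      ((gl (k + 2) ∘ₗ LinearMap.mulLeft ℚ (I * F [2] (Real.pi / 3))).restrict fun z hz =>
        h1 _ (V_F hz))) := (injective_iff_map_eq_zero _).2 fun z e => by
    have e1 : gl (k + 2) ((I * Real.pi) ^ 2 * z) = 0 := congrArg (fun p => p.1.1) e
    have e2 : gl (k + 2) (I * F [2] (Real.pi / 3) * z) = 0 := congrArg (fun p => p.2.1) e
    unfold gl at e1 e2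
    refine Subtype.ext (Complex.ext ?_ ?_) <;> split_ifs at e1 e2 <;>
      simp [sq, F_ne, Real.pi_ne_zero] at e1 e2 <;> simp [e1, e2]
  exact ⟨FiniteDimensional.of_injective _ h2,
    (LinearMap.finrank_le_finrank_of_injective h2).trans_eq (by rw [finrank_prod, two_mul])⟩

theorem span_dim {W k : ℕ} (h : W + 1 ≤ k) : finrank ℚ (Submodule.span ℚ
    (Set.range fun e : ND W => (E e : ℂ))) ≤ (k + 1) * 2 * finrank ℚ (V k) := by
  have := (V_dim k).1
  let κ : Fin (k + 1) × Bool → ℂ := fun i =>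
    (I * Real.pi) ^ (i.1 : ℕ) * if i.2 then I * (√3 : ℝ) else 1
  have hκ : ∀ i, κ i ≠ 0 := fun i => mul_ne_zero (by simp [Real.pi_ne_zero])
    (by split_ifs <;> simp)
  let Lm : (Fin (k + 1) × Bool → V k) →ₗ[ℚ] ℂ :=
    ∑ i, LinearMap.mulLeft ℚ (κ i)⁻¹ ∘ₗ (V k).subtype ∘ₗ LinearMap.proj i
  have h1 : ∀ i z, κ i * z ∈ V k → z ∈ LinearMap.range Lm := fun i z hz =>
    ⟨Pi.single i ⟨_, hz⟩, by
      simp only [Lm, LinearMap.sum_apply, LinearMap.comp_apply, LinearMap.proj_apply]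
      rw [sum_eq_single i (fun j _ hj => by simp [hj]) (by simp)]
      simp [hκ i]⟩
  refine (Submodule.finrank_mono (Submodule.span_le.2 ?_)).trans
    (Lm.finrank_range_le.trans_eq (by simp [finrank_pi_fintype]))
  rintro _ ⟨e, rfl⟩
  obtain ⟨h2, h3⟩ := ND_al e
  obtain ⟨m, hm⟩ := Nat.exists_eq_add_of_le (h3.trans h)
  rcases h2 with h2 | ⟨u, h2, h4⟩
  · exact h1 (⟨m, by omega⟩, false) _ (by simpa [κ, hm] using V_pi (E_ev h2) m)
  · refine h1 (⟨m, by omega⟩, true) _ ?_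
    rw [h4, List.sum_cons, add_comm 1] at hm
    simpa [κ, hm, h4, mul_assoc] using V_pi (E_od h2) m

theorem rank_lower {w : ℕ} (hw : 1 ≤ w) :
    2 ^ (w / 10) ≤ 5000 * w ^ 2 * finrank ℚ (Submodule.span ℚ (Se w w)) := by
  have h4 : 1 ≤ finrank ℚ (Submodule.span ℚ (Se w w)) := Submodule.one_le_finrank_iff.2 fun e => by
    have : Real.pi ^ w * F [] (Real.pi / 3) ∈ Submodule.span ℚ (Se w w) :=
      Submodule.subset_span ⟨w, [], by simp, by simp, by simp, rfl, rfl⟩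
    simp [e, F, Real.pi_ne_zero] at this
  rcases lt_or_ge w 21 with hk | hk
  · calc _ ≤ 2 ^ 2 := Nat.pow_le_pow_right two_pos (by omega)
      _ ≤ _ := by nlinarith
  obtain ⟨k, rfl⟩ : ∃ k, w = k + 2 := ⟨w - 2, by omega⟩
  obtain ⟨g, h5, h6, h7⟩ : ∃ g, 1 ≤ g ∧ 10 * g + 8 + 1 ≤ k ∧ (k + 2) / 10 ≤ g + 2 :=
    ⟨(k - 9) / 10, by omega, by omega, by omega⟩
  have h8 := main h5 ((span_dim h6).trans (Nat.mul_le_mul_left _ (V_dim k).2))
  generalize finrank ℚ (Submodule.span ℚ (Se (k + 2) (k + 2))) = γ at *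
  have h9 : 10 * (g + 1) * ((k + 1) * 2 * (2 * γ) + 1) ≤ (k + 2) * (4 * (k + 2) * γ) :=
    Nat.mul_le_mul (by omega) (by nlinarith)
  calc _ ≤ 2 ^ (g + 2) := Nat.pow_le_pow_right two_pos h7
    _ ≤ _ := by rw [pow_add]; nlinarith

end Pool.Agent.Lib.MP_dda4e9_nt.RK
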