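import Pool.Agent.Lib.MP_dda4e9_nt.R.Tree

/-! The zero estimate: the matrix of the moments has full rank. -/

namespace Pool.Agent.Lib.MP_dda4e9_nt.RK

open Polynomial Finset Matrix LB

variable {ι κ : Type} [DecidableEq ι] [DecidableEq κ] (t : Tr ι) (r : Tr κ)

/-- the contribution of the parent in the recursion for the moments -/
noncomputable def bt (v : ι) (μ : ℕ → ℂ) (j : ℕ) : ℂ :=
  if v = t.rt then 0 else if t.od v then μ (j + 1) else 4 * μ j - μ (j + 1)

/-- the recursion for the moments -/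
def Rec (x : ι → κ → ℂ) (m : ℕ → ι → κ → ℂ) : Prop :=
  ∀ (j : ℕ) v w, ((4 * (j + 1) + t.al v + r.al w : ℕ) : ℂ) * m j v w -
    ((j + 2 : ℕ) : ℂ) * m (j + 1) v w + bt t v (fun i => m i (t.par v) w) j +
      bt r w (fun i => m i v (r.par w)) j = x v w

/-- the differential system of the moment series -/
def Ode (τ : ι → κ → ℂ[X]) (m : ℕ → ι → κ → ℂ) : Prop :=
  ∀ v w, ph ((X - 1) * (4 - X)) * eu (ser fun j => m j v w) =
    ph (t.aa v + r.aa w) * ser (fun j => m j v w) + ph (t.bb v) * ser (fun j => m j (t.par v) w) +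
      ph (r.bb w) * ser (fun j => m j v (r.par w)) + ph (τ v w)

theorem ser_four (μ : ℕ → ℂ) :
    ph (4 - X) * ser μ = ser (fun j => 4 * μ j - μ (j + 1)) - ph (C (μ 0)) := by
  rw [map_sub, sub_mul, ser_shift, ser_sub, ser_mul, show (C 4 : ℂ[X]) = 4 from rfl]
  ring

theorem ser_bt (v : ι) (μ : ℕ → ℂ) : ∃ c, ser (bt t v μ) = ph (t.be v) * ser μ + ph (C c) := by
  unfold bt Tr.be
  split_ifs
  · exact ⟨0, by simp [ser_zero]⟩
  · exact ⟨-μ 0, by rw [ser_shift, map_neg, map_neg]; ring⟩
  · exact ⟨μ 0, by rw [ser_four]; ring⟩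

variable {t r}

theorem Rec.ode {x : ι → κ → ℂ} {m : ℕ → ι → κ → ℂ} (h : Rec t r x m) :
    ∃ τ : ι → κ → ℂ[X], (∀ v w, (τ v w).eval 1 = -x v w) ∧ Ode t r τ m := by
  choose c hc using fun v w => ser_bt t v fun i => m i (t.par v) w
  choose d hd using fun v w => ser_bt r w fun i => m i v (r.par w)
  refine ⟨fun v w => (X - 1) * C (c v w + d v w + m 0 v w) - C (x v w), by simp, fun v w => ?_⟩
  have e : (fun j : ℕ => 4 * (-((j : ℂ) + 1) * m j v w) -
      -(((j + 1 : ℕ) : ℂ) + 1) * m (j + 1) v w) = fun j =>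
      (((t.al v + r.al w : ℂ) * m j v w + bt t v (fun i => m i (t.par v) w) j) +
        bt r w (fun i => m i v (r.par w)) j) - x v w * 1 ^ (j + 1) :=
    funext fun j => by
      have := h j v w
      push_cast at this ⊢
      linear_combination -this
  have e2 := ser_geo 1
  rw [eu_ser, map_mul, mul_assoc, ser_four, e, ser_sub, ser_add, ser_add, ser_mul, ser_mul, hc, hd]
  simp only [Tr.aa, Tr.bb, map_mul, map_add, map_neg, map_sub, map_one, Nat.cast_zero, zero_add,
    neg_mul, one_mul] at e2 ⊢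
  linear_combination -ph (C (x v w)) * e2

theorem Rec.map {x : ι → κ → ℂ} {m : ℕ → ι → κ → ℂ} (h : Rec t r x m) (Λ : ℂ →+ ℂ) :
    Rec t r (fun v w => Λ (x v w)) fun j v w => Λ (m j v w) := fun j v w => by
  have h1 : ∀ (k : ℕ) z, Λ (k * z) = k * Λ z := fun k z => by
    simpa only [nsmul_eq_mul] using map_nsmul Λ k z
  have h2 : ∀ {α : Type} [DecidableEq α] (s : Tr α) u μ,
      Λ (bt s u μ j) = bt s u (fun i => Λ (μ i)) j := fun s u μ => by
    have := h1 4 (μ j)
    unfold bt
    split_ifs <;> simp_all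
  beta_reduce
  rw [← h j v w, map_add, map_add, map_sub, h1, h1, h2, h2]

variable [Fintype ι] [Fintype κ] (t r) (τ : ι → κ → ℂ[X]) (m : ℕ → ι → κ → ℂ)

/-- the connection on pairs -/
noncomputable def st (M : (ι → ℂ[X]) × (κ → ℂ[X])) : (ι → ℂ[X]) × (κ → ℂ[X]) :=
  (t.DD M.1, fun w => TT * derivative (M.2 w) - r.aa w * M.2 w - r.bb w * M.2 (r.par w) -
    ∑ v, M.1 v * τ v w)

/-- the remainder series -/
noncomputable def rm (M : (ι → ℂ[X]) × (κ → ℂ[X])) (w : κ) : LL :=
  ∑ v, ph (M.1 v) * ser (fun j => m j v w) - ph (M.2 w)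

/-- the pairing -/
noncomputable def pr (M : (ι → ℂ[X]) × (κ → ℂ[X])) (a : ι → ℂ[X]) (b : κ → ℂ[X]) : ℂ[X] :=
  ∑ v, M.1 v * a v + ∑ w, M.2 w * b w

/-- the first component of the dual connection -/
noncomputable def du (a : ι → ℂ[X]) (b : κ → ℂ[X]) (v : ι) : ℂ[X] :=
  TT * derivative (a v) - t.aa v * a v - t.bb v * a (t.par v) + ∑ w, τ v w * b w

variable {t r τ m}

theorem sum_DD {α R : Type} [DecidableEq α] [Fintype α] [CommRing R] (s : Tr α) (f : ℂ[X] →+* R)
    (A : α → ℂ[X]) (z : α → R) : ∑ u, f (s.DD A u) * z u =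
      ∑ u, (f (TT * derivative (A u)) * z u + f (s.aa u * A u) * z u +
        f (s.bb u * A u) * z (s.par u)) := by
  simp only [Tr.DD, map_add, map_sum, add_mul, sum_add_distrib, sum_mul, apply_ite f, map_zero,
    ite_mul, zero_mul]
  rw [s.reindex fun v u => f (s.bb v * A v) * z u]

omit [Fintype κ] in
theorem rm_st (h : Ode t r τ m) (M) (w : κ) :
    rm m (st t r τ M) w = ph ((X - 1) * (4 - X)) * eu (rm m M w) - ph (r.aa w) * rm m M w -
      ph (r.bb w) * rm m M (r.par w) := by
  have e2 : ∀ v, ph ((X - 1) * (4 - X)) * eu (ph (M.1 v) * ser fun j => m j v w) =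
      (ph (TT * derivative (M.1 v)) * ser (fun j => m j v w) +
      ph (t.aa v * M.1 v) * ser (fun j => m j v w) +
      ph (t.bb v * M.1 v) * ser (fun j => m j (t.par v) w)) +
      ph (r.aa w) * (ph (M.1 v) * ser fun j => m j v w) +
      ph (r.bb w) * (ph (M.1 v) * ser fun j => m j v (r.par w)) + ph (M.1 v * τ v w) := by
    intro v
    rw [eu_mul, TT]
    have := h v w
    simp only [map_mul, map_add] at this ⊢
    linear_combination ph (M.1 v) * this
  rw [rm, rm, rm, eu_sub, eu_sum, eu_ph, mul_sub (ph _), mul_sub (ph _), mul_sub (ph _), mul_sum,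
    mul_sum, mul_sum, sum_congr rfl fun v _ => e2 v, sum_add_distrib, sum_add_distrib,
    sum_add_distrib, ← sum_DD]
  simp only [st, map_sub, map_sum, TT, map_mul]
  ring

theorem pr_st (M) (a : ι → ℂ[X]) (b : κ → ℂ[X]) :
    TT * derivative (pr M a b) = pr (st t r τ M) a b + pr M (du t τ a b) (r.DD b) := by
  have e1 := sum_DD t (RingHom.id _) M.1 a
  have e2 := sum_DD r (RingHom.id _) b M.2
  have e3 : ∑ w, (∑ v, M.1 v * τ v w) * b w = ∑ v, M.1 v * ∑ w, τ v w * b w := by
    simp only [sum_mul, mul_sum, mul_assoc]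
    exact sum_comm
  simp only [RingHom.id_apply] at e1 e2
  have e4 : ∑ v, TT * derivative (M.1 v * a v) = ∑ v, ((TT * derivative (M.1 v) * a v +
      t.aa v * M.1 v * a v + t.bb v * M.1 v * a (t.par v)) + M.1 v * du t τ a b v -
        M.1 v * ∑ w, τ v w * b w) :=
    sum_congr rfl fun v _ => by simp only [du, derivative_mul]; ring
  have e5 : ∑ w, TT * derivative (M.2 w * b w) = ∑ w, ((TT * derivative (b w) * M.2 w +
      r.aa w * b w * M.2 w + r.bb w * b w * M.2 (r.par w)) + (st t r τ M).2 w * b w +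
        (∑ v, M.1 v * τ v w) * b w) :=
    sum_congr rfl fun v _ => by simp only [st, derivative_mul]; ring
  rw [sum_sub_distrib, sum_add_distrib, ← e1] at e4
  rw [sum_add_distrib, sum_add_distrib, ← e2, e3] at e5
  simp only [pr, map_add, map_sum, mul_add]
  rw [mul_sum, mul_sum, e4, e5, sum_congr rfl fun w _ => mul_comm (M.2 w) (r.DD b w)]
  change _ = ∑ v, t.DD M.1 v * a v + _ + _
  ring

omit [DecidableEq ι] [Fintype ι] in
theorem deg_aa (v : ι) : (t.aa v).natDegree ≤ 3 := by
  unfold Tr.aa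
  compute_degree!

omit [Fintype ι] in
theorem deg_bb (v : ι) : (t.bb v).natDegree ≤ 3 :=
  (natDegree_mul_le_of_le (by compute_degree! : (X - 1 : ℂ[X]).natDegree ≤ 2) (t.deg_be v))

theorem deg_DD {A : ι → ℂ[X]} {k : ℕ} (h : ∀ v, (A v).natDegree ≤ k) (v : ι) :
    (t.DD A v).natDegree ≤ k + 3 := by
  have h1 : TT.natDegree ≤ 3 := by unfold TT; compute_degree
  rw [add_comm]
  refine natDegree_add_le_of_degree_le (natDegree_add_le_of_degree_le
    (natDegree_mul_le_of_le h1 ((natDegree_derivative_le _).trans ((Nat.sub_le _ _).trans (h v))))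
    (natDegree_mul_le_of_le (deg_aa v) (h v))) (natDegree_sum_le_of_forall_le _ _ fun u _ => ?_)
  split_ifs
  · exact natDegree_mul_le_of_le (deg_bb u) (h u)
  · simp

theorem DD_lin (p q : ℂ[X]) (A B : ι → ℂ[X]) : t.DD (p • A + q • B) =
    p • t.DD A + (TT * derivative p) • A + (q • t.DD B + (TT * derivative q) • B) := by
  ext1 u
  have e : ∑ v, (if t.par v = u then t.bb v * (p * A v + q * B v) else 0) =
      p * ∑ v, (if t.par v = u then t.bb v * A v else 0) +
        q * ∑ v, if t.par v = u then t.bb v * B v else 0 := by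
    rw [mul_sum, mul_sum, ← sum_add_distrib]
    exact sum_congr rfl fun v _ => by split_ifs <;> ring
  simp only [Tr.DD, Pi.add_apply, Pi.smul_apply, smul_eq_mul, map_add, derivative_mul, e]
  ring

theorem ann (hx : (τ t.rt r.rt).eval 1 ≠ 0) (M : ℕ → (ι → ℂ[X]) × (κ → ℂ[X]))
    (hM : ∀ k, M (k + 1) = st t r τ (M k)) (hne : (M 0).1 ≠ 0) (a : ι → ℂ[X]) (b : κ → ℂ[X])
    (hab : ∀ k, pr (M k) a b = 0) : b = 0 := by
  by_contra hb0
  obtain ⟨p, hp, hpm⟩ := t.root_mem (Submodule.span ℂ[X] (Set.range fun k => (M k).1))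
    (fun A hA => by
      induction hA using Submodule.span_induction with
      | mem A hA =>
        obtain ⟨k, rfl⟩ := hA
        exact Submodule.subset_span ⟨k + 1, by simp only [hM, st]⟩
      | zero =>
        convert Submodule.zero_mem _
        simpa using DD_lin (t := t) 0 0 0 0
      | add A B _ _ iA iB =>
        convert Submodule.add_mem _ iA iB
        simpa using DD_lin (t := t) 1 1 A B
      | smul q A hA iA =>
        convert Submodule.add_mem _ (Submodule.smul_mem _ q iA)
          (Submodule.smul_mem _ (TT * derivative q) hA)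
        simpa using DD_lin (t := t) q 0 A A)
    _ (Submodule.subset_span ⟨0, rfl⟩) hne
  have key : ∀ a, (∀ k, pr (M k) a 0 = 0) → a t.rt = 0 := fun a ha => by
    have : ∀ A ∈ Submodule.span ℂ[X] (Set.range fun k => (M k).1),
        ∑ v, A v * a v = 0 := fun A hA => by
      induction hA using Submodule.span_induction with
      | mem A hA => obtain ⟨k, rfl⟩ := hA; simpa [pr] using ha k
      | zero => simp
      | add A B _ _ iA iB => simp [add_mul, sum_add_distrib, iA, iB]
      | smul q A _ iA => simp [mul_assoc, ← mul_sum, iA]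
    have h2 := this _ hpm
    rw [sum_eq_single t.rt (fun v _ hv => by simp [hv]) (by simp)] at h2
    simpa [hp] using h2
  have lin : ∀ (k) (p q : ℂ[X]) (a a' : ι → ℂ[X]) (b b' : κ → ℂ[X]), pr (M k) (p • a + q • a')
      (p • b + q • b') = p * pr (M k) a b + q * pr (M k) a' b' := by
    intro k p q a a' b b'
    simp only [pr, Pi.add_apply, Pi.smul_apply, smul_eq_mul, mul_add, sum_add_distrib, mul_sum,
      mul_left_comm]
    ring
  have dual : ∀ a b, (∀ k, pr (M k) a b = 0) →
      ∀ k, pr (M k) (du t τ a b) (r.DD b) = 0 := fun a b h k => by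
    have := pr_st (t := t) (r := r) (τ := τ) (M k) a b
    rw [← hM, h, h] at this
    simpa using this.symm
  let P : Submodule ℂ[X] (κ → ℂ[X]) :=
    { carrier := {b | ∃ a, ∀ k, pr (M k) a b = 0}
      add_mem' := by
        rintro b b' ⟨a, h2⟩ ⟨a', h4⟩
        exact ⟨a + a', fun k => by simpa [h2, h4] using lin k 1 1 a a' b b'⟩
      zero_mem' := ⟨0, fun k => by simp [pr]⟩
      smul_mem' := by
        rintro q b ⟨a, h2⟩
        exact ⟨q • a, fun k => by simpa [h2] using lin k q 0 a a b b⟩ }
  obtain ⟨q, hq, a, hq2⟩ := r.root_mem P (fun b ⟨a, h2⟩ => ⟨_, dual a b h2⟩) b ⟨a, hab⟩ hb0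
  have h3 : q • r.DD (Pi.single r.rt q) + (-(TT * derivative q)) • Pi.single r.rt q =
      (0 : κ → ℂ[X]) := by
    ext1 u
    have e : ∑ v, (if r.par v = u then r.bb v * (Pi.single r.rt q : κ → ℂ[X]) v else 0) = 0 :=
      sum_eq_zero fun v _ => by by_cases hv : v = r.rt <;> simp [hv, r.bb_rt]
    simp only [Pi.add_apply, Pi.smul_apply, Tr.DD, e]
    by_cases hu : u = r.rt
    · simp [hu, r.aa_rt, mul_comm]
    · simp [hu]
  have h4 := key (q • du t τ a (Pi.single r.rt q) + (-(TT * derivative q)) • a) fun k => by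
    rw [← h3, lin, dual a _ hq2, hq2]; simp
  simp only [Pi.add_apply, Pi.smul_apply, smul_eq_mul, du] at h4
  rw [sum_eq_single r.rt (fun v _ hv => by simp [hv]) (by simp)] at h4
  have h5 := resid 1 (S := X * (4 - X)) (p := a t.rt) (q := -τ t.rt r.rt) hq
    (by simp; norm_num) (by
      simp only [TT, t.aa_rt, t.bb_rt, Pi.single_eq_same, map_one] at h4 ⊢
      linear_combination h4)
  simp [hx] at h5

theorem zero_est {x : ι → κ → ℂ} (h : Rec t r x m) (hx : x t.rt r.rt ≠ 0) {n : ℕ}
    (hN : 2 * Fintype.card ι < Fintype.card κ)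
    (hn : 3 * (Fintype.card ι + Fintype.card κ) ^ 2 ≤ n) : LinearIndependent ℂ
      fun (p : ι × Fin n) (q : κ × Fin (n + 1)) =>
        4 * m (q.2 + p.2) p.1 q.1 - m (q.2 + p.2 + 1) p.1 q.1 := by
  classical
  obtain ⟨τ, hτ, h⟩ := h.ode
  rw [Fintype.linearIndependent_iff]
  intro g hg
  by_contra hg0
  push Not at hg0
  obtain ⟨⟨v0, j0⟩, hg0⟩ := hg0
  have h4X : (4 - X : ℂ[X]) ≠ 0 := fun e => by simpa using congrArg (eval 0) e
  let A : ι → ℂ[X] := fun v => (∑ j : Fin n, C (g (v, j)) * X ^ (j : ℕ)) * (4 - X)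
  have hA : A ≠ 0 := fun e => by
    have := congrArg (fun p => p.coeff j0)
      ((mul_eq_zero.1 (congrFun e v0)).resolve_right h4X)
    simp [Fin.val_inj] at this
    exact hg0 this
  have hAd : ∀ v, (A v).natDegree ≤ n := fun v => by
    have := j0.2
    refine (natDegree_mul_le_of_le (m := n - 1) (n := 1) (natDegree_sum_le_of_forall_le _ _
      fun j _ => (natDegree_C_mul_X_pow_le _ _).trans (by omega)) (by compute_degree)).trans
      (by omega)
  have hB : ∀ w, ∃ b, Od (n + 2) (∑ v, ph (A v) * ser (fun j => m j v w) - ph b) := fun w => by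
    choose b hb using fun (v : ι) (j : Fin n) =>
      pow_mul_ser j fun i => 4 * m i v w - m (i + 1) v w
    refine ⟨∑ v, ∑ j, C (g (v, j)) * (b v j - X ^ (j : ℕ) * C (m 0 v w)), ?_⟩
    have e : ∑ v, ph (A v) * ser (fun j => m j v w) =
        ph (∑ v, ∑ j, C (g (v, j)) * (b v j - X ^ (j : ℕ) * C (m 0 v w))) + ser fun i =>
          ∑ v, ∑ j : Fin n, g (v, j) * (4 * m (i + j) v w - m (i + j + 1) v w) := by
      rw [ser_sum, map_sum, ← sum_add_distrib]
      refine sum_congr rfl fun v _ => ?_
      simp only [A]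
      rw [map_mul, mul_assoc, ser_four]
      simp only [map_sum, sum_mul, ser_sum, ← sum_add_distrib, ser_mul]
      refine sum_congr rfl fun j _ => ?_
      have := hb v j
      simp only [map_mul, map_sub] at this ⊢
      linear_combination ph (C (g (v, j))) * this
    rw [e, add_sub_cancel_left]
    refine (od_ser (e := n + 1) fun i hi => ?_).mono (by push_cast; omega)
    simpa [Finset.sum_apply, Fintype.sum_prod_type] using congrFun hg (w, ⟨i, hi⟩)
  choose B hB using hB
  let M : ℕ → (ι → ℂ[X]) × (κ → ℂ[X]) := fun k => (st t r τ)^[k] (A, B)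
  have hM : ∀ k, M (k + 1) = st t r τ (M k) := fun k => Function.iterate_succ_apply' _ _ _
  have hd : ∀ k v, ((M k).1 v).natDegree ≤ n + 3 * k := fun k => by
    induction k with
    | zero => exact hAd
    | succ k ih => rw [hM]; exact deg_DD ih
  have ho : ∀ (k : ℕ) w, Od (n + 2 - 3 * k) (rm m (M k) w) := fun k => by
    induction k with
    | zero => exact fun w => (hB w).mono (by simp)
    | succ k ih =>
      intro w
      rw [hM, rm_st h]
      refine (Od.sub (((od_ph (k := 3) ?_).mul (ih w).eu).mono ?_)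
        (((od_ph (deg_aa w)).mul (ih _)).mono ?_)).sub (((od_ph (deg_bb w)).mul (ih _)).mono ?_)
      · exact le_trans (b := 2) (by compute_degree) (by norm_num)
      all_goals push_cast; omega
  let ρ : ℕ → ι ⊕ κ → ℂ[X] := fun k => Sum.elim (M k).1 (M k).2
  have hρ : ∀ k (c : ι ⊕ κ → ℂ[X]), ∑ i, ρ k i * c i =
      pr (M k) (fun v => c (.inl v)) fun w => c (.inr w) := fun k c => by
    simp [pr, ρ, Fintype.sum_sum_type]
  set R := Fintype.card ι + Fintype.card κ with hR
  obtain ⟨j, hj, hj2⟩ : ∃ j ≤ R, ∀ a b, (∀ i < j, pr (M i) a b = 0) → pr (M j) a b = 0 := by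
    have h2 : ¬ LinearIndependent ℂ[X] fun i : Fin (R + 1) => ρ i := fun h2 => by
      have := h2.fintype_card_le_finrank
      simp at this
      omega
    rw [Fintype.not_linearIndependent_iff] at h2
    obtain ⟨c, hc, hc0⟩ := h2
    obtain ⟨j, hj1, hj2⟩ := exists_max_image (univ.filter fun i => c i ≠ 0) id
      (hc0.imp fun i hi => by simpa using hi)
    refine ⟨j, Nat.le_of_lt_succ j.2, fun a b hab => ?_⟩
    have e : ∀ k, pr (M k) a b = ∑ i, ρ k i * Sum.elim a b i := fun k => by rw [hρ]; rfl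
    have e2 : ∑ i, c i * pr (M i) a b = 0 := by
      simp only [e, mul_sum, ← mul_assoc]
      rw [sum_comm]
      refine sum_eq_zero fun l _ => ?_
      have := congrFun hc l
      simp only [Finset.sum_apply, Pi.smul_apply, smul_eq_mul, Pi.zero_apply] at this
      rw [← sum_mul, this, zero_mul]
    rw [sum_eq_single j (fun i _ hi => ?_) (by simp)] at e2
    · exact (mul_eq_zero.1 e2).resolve_left (by simpa using hj1)
    · by_cases hci : c i = 0
      · rw [hci, zero_mul]
      · rw [hab i (lt_of_le_of_ne (hj2 i (by simpa using hci)) fun e => hi (Fin.ext e)), mul_zero]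
  have hall : ∀ k a b, (∀ i < j, pr (M i) a b = 0) → pr (M k) a b = 0 := fun k => by
    induction k with
    | zero =>
      intro a b hab
      rcases Nat.eq_zero_or_pos j with rfl | hj0
      exacts [hj2 a b hab, hab 0 hj0]
    | succ k ih =>
      intro a b hab
      have e := pr_st (t := t) (r := r) (τ := τ) (M k) a b
      rw [← hM, ih a b hab, ih _ _ fun i hi => ?_] at e
      · simpa using e.symm
      · have e' := pr_st (t := t) (r := r) (τ := τ) (M i) a b
        rw [← hM, hab i hi, show pr (M (i + 1)) a b = 0 from ?_] at e'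
        · simpa using e'.symm
        · rcases (Nat.succ_le_of_lt hi).eq_or_lt with e | e
          exacts [by rw [show i + 1 = j from e]; exact hj2 a b hab, hab _ e]
  obtain ⟨Q, I, p1, p2, p3, p4⟩ := greedy {r | ∃ i < j, r = ρ i}
  have hz : ∀ i ∈ I, ∀ w, Q.adjugate (.inr w) i = 0 := fun i hi w =>
    congrFun (ann (by rw [hτ]; exact neg_ne_zero.2 hx) M hM hA _ _ fun k => hall k _ _
      fun l hl => (hρ l fun c => Q.adjugate c i).symm.trans
        ((det_updateRow_eq _ _ _).symm.trans (p4 i hi _ ⟨l, hl, rfl⟩))) w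
  have hI : I.card ≤ Fintype.card ι := by
    have h2 : LinearIndependent ℂ[X] fun (i : I) (v : ι) => Q.adjugate (.inl v) i := by
      rw [Fintype.linearIndependent_iff]
      intro c hc i
      have e : Q.adjugate *ᵥ (fun i => if hi : i ∈ I then c ⟨i, hi⟩ else 0) = 0 := by
        ext1 l
        simp only [mulVec, dotProduct, Pi.zero_apply]
        rw [← sum_subset (subset_univ I) fun i _ hi => by simp [hi], ← sum_coe_sort]
        rcases l with v | w
        · simpa [Finset.sum_apply, mul_comm] using congrFun hc v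
        · exact sum_eq_zero fun i _ => by rw [hz i i.2, zero_mul]
      have e2 := congrFun (congrArg (fun z => Q *ᵥ z) e) i
      simpa [mulVec_mulVec, mul_adjugate, smul_mulVec, p1] using e2
    simpa using h2.fintype_card_le_finrank
  let U : Matrix (ι ⊕ κ) (ι ⊕ κ) LL :=
    fromBlocks 1 (Matrix.of fun v w => ser fun j => m j v w) 0 (-1)
  have h3 := od_det (ph.mapMatrix Q * U)
    (fun i => -(3 * R) - if i ∈ I then (n + 2 : ℤ) else 0)
    (Sum.elim (fun _ => -n) fun _ => n + 2) fun i l => by
      by_cases hi : i ∈ I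
      · have : (ph.mapMatrix Q * U) i l = U i l := by
          simp [Matrix.mul_apply, p2 i hi, Pi.single_apply, apply_ite ph]
        rw [this, if_pos hi]
        refine Od.mono (e := 0) ?_ (by rcases l with v | w <;> simp <;> omega)
        rcases i with v' | w' <;> rcases l with v | w
        · simp only [U, fromBlocks_apply₁₁, Matrix.one_apply]
          split_ifs
          exacts [od_one, od_zero _]
        · exact (od_ser (e := 0) (c := fun j => m j v' w) fun j hj =>
            absurd hj j.not_lt_zero).mono (by simp)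
        · exact od_zero _
        · simp only [U, fromBlocks_apply₂₂, Matrix.neg_apply, Matrix.one_apply]
          split_ifs
          exacts [od_one.neg, (od_zero _).neg]
      · obtain ⟨k, hk, e⟩ := p3 i hi
        rw [if_neg hi]
        rcases l with v | w
        · have : (ph.mapMatrix Q * U) i (.inl v) = ph ((M k).1 v) := by
            simp [Matrix.mul_apply, Fintype.sum_sum_type, U, e, ρ, Matrix.one_apply]
          rw [this]
          exact (od_ph (hd k v)).mono (by simp; omega)
        · have : (ph.mapMatrix Q * U) i (.inr w) = rm m (M k) w := by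
            simp [Matrix.mul_apply, Fintype.sum_sum_type, U, e, ρ, Matrix.one_apply, rm,
              sub_eq_add_neg, apply_ite (fun z : LL => -z)]
            ring
          rw [this]
          exact (ho k w).mono (by simp; omega)
  have h4 : U.det = (-1) ^ Fintype.card κ := by simp [U, det_fromBlocks_zero₂₁, det_neg]
  rw [det_mul, h4, ← RingHom.map_det] at h3
  have h5 : ∀ e, Od e (ph Q.det * (-1) ^ Fintype.card κ) → Od e (ph Q.det) := fun e he => by
    rcases neg_one_pow_eq_or LL (Fintype.card κ) with e1 | e1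
    · simpa [e1] using he
    · simpa [e1] using he.neg
  refine p1 (eq_zero_of_od ((h5 _ h3).mono ?_))
  simp only [sum_sub_distrib, sum_const, card_univ, Fintype.card_sum,
    Fintype.sum_sum_type, Sum.elim_inl, Sum.elim_inr, sum_ite_mem, univ_inter, nsmul_eq_mul]
  have h5 : (I.card : ℤ) ≤ Fintype.card ι := by exact_mod_cast hI
  have h6 : (3 * R ^ 2 : ℤ) ≤ n := by exact_mod_cast hn
  have h7 : (2 * Fintype.card ι + 1 : ℤ) ≤ Fintype.card κ := by exact_mod_cast hN
  have h8 : (R : ℤ) = Fintype.card ι + Fintype.card κ := by exact_mod_cast hR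
  push_cast
  rw [← h8]
  nlinarith [Int.natCast_nonneg n, Int.natCast_nonneg (Fintype.card ι)]

end Pool.Agent.Lib.MP_dda4e9_nt.RK
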