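import Pool.Agent.Lib.MP_dda4e9_nt.R.Seq
import Pool.Agent.Lib.MP_dda4e9_nt.R.Zero

/-! The tree of admissible indices and the recursion for the moments. -/

namespace Pool.Agent.Lib.MP_dda4e9_nt.RK

open Finset

/-- admissible indices -/
def Al (w : List ℕ) : Prop := Ev w ∨ ∃ u, Ev u ∧ w = 1 :: u

theorem Al.shape {w : List ℕ} (h : Al w) : EvH w ∨ ∃ u, w = 1 :: u :=
  h.imp Ev.evH fun ⟨u, _, h⟩ => ⟨u, h⟩

theorem Al.pos {w : List ℕ} (h : Al w) : ∀ a ∈ w, 1 ≤ a := fun a ha => by
  rcases h with h | ⟨u, h, rfl⟩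
  · have := h a ha; omega
  · rcases List.mem_cons.1 ha with rfl | ha
    · rfl
    · have := h a ha; omega

theorem Al.sum_par {w : List ℕ} (h : Al w) (h0 : w ≠ []) : w.sum = (par w).sum + 1 := by
  rcases h.shape with (rfl | ⟨c, u, rfl⟩) | ⟨u, rfl⟩
  · exact absurd rfl h0
  · simp [par]; ring
  · simp [par]; ring

theorem Ev.par_cases {w : List ℕ} (h : Ev w) :
    Ev (par w) ∨ ∃ u, Ev u ∧ par w = 1 :: u ∧ u.sum ≤ w.sum := by
  cases w with
  | nil => exact Or.inl h
  | cons c u =>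
    rcases h c (by simp) with rfl | rfl
    exacts [Or.inr ⟨u, h.tail, rfl, by simp⟩, Or.inl (h.tail.cons (Or.inl rfl))]

theorem Al.par {w : List ℕ} (h : Al w) : Al (par w) := by
  rcases h with h | ⟨u, h, rfl⟩
  exacts [h.par_cases.imp id fun ⟨u, h1, h2, _⟩ => ⟨u, h1, h2⟩, Or.inl h]

/-- the indices with entries two and three and bounded weight -/
def EV : ℕ → Finset (List ℕ)
  | 0 => {[]}
  | 1 => {[]}
  | 2 => {[], [2]}
  | m + 3 => insert [] ((EV (m + 1)).image (2 :: ·) ∪ (EV m).image (3 :: ·))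

theorem mem_EV (u : List ℕ) : ∀ m, u ∈ EV m ↔ Ev u ∧ u.sum ≤ m := by
  induction u with
  | nil => intro m; unfold EV; split <;> simp [Ev]
  | cons c u ih =>
    intro m
    have e : Ev (c :: u) ↔ (c = 2 ∨ c = 3) ∧ Ev u := List.forall_mem_cons
    rw [e, List.sum_cons]
    unfold EV
    split
    · simp; omega
    · simp; omega
    · have := ih 0
      simp only [EV, mem_singleton, nonpos_iff_eq_zero] at this
      simp only [mem_insert, reduceCtorEq, mem_singleton, List.cons.injEq, false_or, this]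
      exact ⟨fun ⟨h1, h2, h3⟩ => ⟨⟨Or.inl h1, h2⟩, by omega⟩,
        fun ⟨⟨h1, h2⟩, h3⟩ => ⟨by omega, h2, by omega⟩⟩
    · simp only [mem_insert, reduceCtorEq, mem_union, mem_image, List.cons.injEq, false_or]
      constructor
      · rintro (⟨a, h, rfl, rfl⟩ | ⟨a, h, rfl, rfl⟩) <;> rw [ih] at h
        exacts [⟨⟨Or.inl rfl, h.1⟩, by omega⟩, ⟨⟨Or.inr rfl, h.1⟩, by omega⟩]
      · rintro ⟨⟨rfl | rfl, h1⟩, h2⟩
        exacts [Or.inl ⟨u, (ih _).2 ⟨h1, by omega⟩, rfl, rfl⟩,
          Or.inr ⟨u, (ih _).2 ⟨h1, by omega⟩, rfl, rfl⟩]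

theorem card_EV (m : ℕ) : (EV (m + 3)).card = (EV (m + 1)).card + (EV m).card + 1 := by
  rw [EV, card_insert_of_notMem (by simp), card_union_of_disjoint (by simp [disjoint_left]),
    card_image_of_injective _ List.cons_injective, card_image_of_injective _ List.cons_injective]

theorem card_five (m : ℕ) : 4 * (EV (m + 1)).card + 3 ≤ (EV (m + 6)).card := by
  have h0 : (EV 0).card = 1 := rfl
  have h1 : (EV 1).card = 1 := rfl
  have h2 : (EV 2).card = 2 := rfl
  induction m using Nat.strong_induction_on with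
  | _ m ih =>
  match m with
  | 0 => simp only [card_EV, Nat.reduceAdd, h0, h1, h2]; omega
  | 1 => simp only [card_EV, Nat.reduceAdd, h0, h1, h2]; omega
  | 2 => simp only [card_EV, Nat.reduceAdd, h0, h1, h2]; omega
  | m + 3 =>
    have := ih m (by omega)
    have := ih (m + 1) (by omega)
    have := card_EV (m + 1)
    have := card_EV (m + 6)
    simp only [add_assoc, Nat.reduceAdd] at *
    omega

theorem card_pow (g : ℕ) : 4 ^ g ≤ (EV (5 * g + 1)).card := by
  induction g with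
  | zero => exact le_rfl
  | succ g ih =>
    have := card_five (5 * g)
    rw [show 5 * (g + 1) + 1 = 5 * g + 6 by ring, pow_succ]
    omega

/-- the admissible indices of bounded weight -/
def ND (m : ℕ) : Finset (List ℕ) := EV m ∪ (EV m).image (1 :: ·)

theorem mem_ND {m : ℕ} {w : List ℕ} :
    w ∈ ND m ↔ (Ev w ∧ w.sum ≤ m) ∨ ∃ u, (Ev u ∧ u.sum ≤ m) ∧ 1 :: u = w := by
  simp [ND, mem_EV]

theorem ND_al {m : ℕ} (w : ND m) : Al w ∧ w.1.sum ≤ m + 1 := by
  rcases mem_ND.1 w.2 with ⟨h1, h2⟩ | ⟨u, ⟨h1, h2⟩, h3⟩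
  · exact ⟨Or.inl h1, by omega⟩
  · exact ⟨Or.inr ⟨u, h1, h3.symm⟩, by rw [← h3, List.sum_cons]; omega⟩

theorem al_mem {m : ℕ} {w : List ℕ} (h : Al w) (h1 : w.sum ≤ m) : w ∈ ND m := by
  rcases h with h | ⟨u, h, rfl⟩
  · exact mem_ND.2 (Or.inl ⟨h, h1⟩)
  · exact mem_ND.2 (Or.inr ⟨u, ⟨h, by rw [List.sum_cons] at h1; omega⟩, rfl⟩)

theorem card_ND (m : ℕ) : Fintype.card (ND m) = 2 * (EV m).card := by
  rw [Fintype.card_coe, ND, card_union_of_disjoint, card_image_of_injective _ List.cons_injective,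
    two_mul]
  simp only [disjoint_left, mem_image, mem_EV]
  rintro _ ⟨h, -⟩ ⟨u, -, rfl⟩
  simpa using h 1 (by simp)

theorem card_lt (m : ℕ) : 2 * Fintype.card (ND m) < Fintype.card (ND (m + 3)) := by
  have : (EV m).card ≤ (EV (m + 1)).card := card_le_card fun u hu => by
    rw [mem_EV] at hu ⊢
    exact ⟨hu.1, by omega⟩
  rw [card_ND, card_ND, card_EV]
  omega

/-- the tree of admissible indices -/
def TR (m : ℕ) : Tr (ND m) where
  par w := ⟨par w, by
    by_cases h : w.1 = []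
    · rw [h]; exact al_mem (Or.inl (by simp [Ev, par])) (Nat.zero_le _)
    · have := (ND_al w).1.sum_par h
      exact al_mem (ND_al w).1.par (by have := (ND_al w).2; omega)⟩
  od w := decide (w.1.head? = some 1)
  wt w := w.1.sum
  rt := ⟨[], al_mem (Or.inl (by simp [Ev])) (Nat.zero_le _)⟩
  par_rt := rfl
  od_rt := rfl
  wt_rt := rfl
  wt_par v h := (ND_al v).1.sum_par fun e => h (Subtype.ext e)
  inj v v' h h' e1 e2 := by
    have e3 : par v = par v' := congrArg Subtype.val e1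
    refine Subtype.ext ?_
    rcases (ND_al v).1.shape with (e | ⟨c, u, e⟩) | ⟨u, e⟩
    · exact absurd (Subtype.ext e) h
    all_goals
      rcases (ND_al v').1.shape with (e' | ⟨c', u', e'⟩) | ⟨u', e'⟩
      · exact absurd (Subtype.ext e') h'
      all_goals simp_all [par]

theorem rec_Z {h a : ℕ} : Rec (TR h) (TR a) (fun v w => if v.1 = [] then 3 * (E w : ℂ) else 0)
    fun j v w => (-1) ^ v.1.sum * (Z v w (j + 1) : ℂ) := fun j v w => by
  have e1 : bt (TR a) w (fun i => (-1) ^ v.1.sum * (Z v ((TR a).par w) (i + 1) : ℂ)) j =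
      (-1) ^ v.1.sum * ((if w.1.head? = some 1 then Zw v w (j + 1 + 1) else
        4 * Zw v w (j + 1) - Zw v w (j + 1 + 1) : ℝ) : ℂ) := by
    simp only [bt, TR, Zw, Subtype.ext_iff, decide_eq_true_eq]
    split_ifs <;> push_cast <;> ring
  have e2 : bt (TR h) v (fun i => (-1) ^ ((TR h).par v).1.sum *
      (Z ((TR h).par v) w (i + 1) : ℂ)) j = (if v.1 = [] then 3 * (E w : ℂ) else 0) -
      (-1) ^ v.1.sum * ((if v.1.head? = some 1 then Zp v w (j + 1 + 1) else
        4 * Zp v w (j + 1) - Zp v w (j + 1 + 1) : ℝ) : ℂ) := by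
    simp only [bt, TR, Subtype.ext_iff, decide_eq_true_eq]
    have := (ND_al v).1.sum_par
    obtain ⟨_ | ⟨c, u⟩, hv⟩ := v
    · simp [Zp_nil]; ring
    · rw [this (by simp)]
      simp only [reduceCtorEq, if_false, Zp_cons]
      split_ifs <;> push_cast <;> ring
  have e3 : ((4 * (j + 1) + (TR h).al v + (TR a).al w : ℕ) : ℝ) * Z v w (j + 1) -
      ((j + 2 : ℕ) : ℝ) * Z v w (j + 1 + 1) + (if w.1.head? = some 1 then Zw v w (j + 1 + 1) else
        4 * Zw v w (j + 1) - Zw v w (j + 1 + 1)) = if v.1.head? = some 1 then Zp v w (j + 1 + 1)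
        else 4 * Zp v w (j + 1) - Zp v w (j + 1 + 1) := by
    have e : ∀ u, EvH u → ¬ u.head? = some 1 := by rintro _ (rfl | ⟨c, u, rfl⟩) <;> simp
    simp only [Tr.al, TR, decide_eq_true_eq]
    rcases (ND_al v).1.shape with hv | ⟨t, hv⟩ <;> rcases (ND_al w).1.shape with hw | ⟨u, hw⟩
    · have := r_ee hv hw (j + 1)
      simp only [e _ hv, e _ hw, if_false]
      push_cast at this ⊢
      linear_combination 4 * r_ee hv hw j - this
    · have := r_eo hv u (j + 1)
      simp only [e _ hv, hw, if_false, List.head?_cons, if_true]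
      push_cast at this ⊢
      linear_combination -this
    · have := r_oe t hw (j + 1)
      simp only [e _ hw, hv, if_false, List.head?_cons, if_true]
      push_cast at this ⊢
      linear_combination -this
    · have := r_oo t u (j + 1)
      simp only [hw, hv, List.head?_cons, if_true]
      push_cast at this ⊢
      linear_combination this
  beta_reduce
  rw [e1, e2, ← e3]
  push_cast
  ring

end Pool.Agent.Lib.MP_dda4e9_nt.RK
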