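import Pool.Agent.Lib.MP_dda4e9_nt.LbH

/-! Central binomial sums, the dual sequences and their recursions. -/

namespace Pool.Agent.Lib.MP_dda4e9_nt.RK

open Finset Nat

/-- the parent of an index -/
def par : List ℕ → List ℕ
  | [] => []
  | a :: u => if a ≤ 1 then u else (a - 1) :: u

/-- the coefficients of the central binomial series -/
noncomputable def fi (w : List ℕ) (k : ℕ) : ℝ := co w k / centralBinom k

/-- the dual sequences -/
noncomputable def mu : List ℕ → ℕ → ℝ
  | [], k => 1 / k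
  | c :: u, j => centralBinom j *
      (∑' k, mu u (k + (j + 1)) / (((k + (j + 1) : ℕ) : ℝ) * centralBinom (k + (j + 1)))) / j ^ (c - 1)

/-- the dual sequence of the parent -/
noncomputable def mup (v : List ℕ) (k : ℕ) : ℝ := if v = [] then 1 else mu (par v) k

theorem cb_pos (k : ℕ) : (0 : ℝ) < centralBinom k := by exact_mod_cast centralBinom_pos k

theorem cb_succ (k : ℕ) : ((k : ℝ) + 1) * centralBinom (k + 1) = (4 * k + 2) * centralBinom k := by
  have : (((k + 1) * centralBinom (k + 1) : ℕ) : ℝ) = (2 * (2 * k + 1) * centralBinom k : ℕ) := by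
    rw [succ_mul_centralBinom_succ]
  push_cast at this
  linarith

theorem cb_ge (j k : ℕ) : (2 : ℝ) ^ k * centralBinom j ≤ centralBinom (k + j) := by
  induction k with
  | zero => simp
  | succ k ih =>
    have h1 := cb_succ (k + j)
    have h2 := cb_pos (k + j)
    rw [show k + 1 + j = k + j + 1 by ring, pow_succ]
    refine le_trans (b := 2 * (centralBinom (k + j) : ℝ)) (by linarith) (le_of_mul_le_mul_left
      (a := ((k + j : ℕ) : ℝ) + 1) ?_ (by positivity))
    rw [h1]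
    nlinarith [(k + j).cast_nonneg (α := ℝ)]

theorem fi_nonneg (w : List ℕ) (k : ℕ) : 0 ≤ fi w k := div_nonneg (co_bound w k).1 (cb_pos k).le

theorem fi_le (w : List ℕ) (k : ℕ) : fi w k ≤ ((k : ℝ) + 1) ^ w.length * (1 / 2) ^ k := by
  have h := cb_ge 0 k
  simp only [centralBinom_zero, cast_one, mul_one, add_zero] at h
  rw [fi, one_div, inv_pow, ← div_eq_mul_inv]
  exact div_le_div₀ (by positivity) (co_bound w k).2 (by positivity) h

theorem fi_zero (a : ℕ) (u : List ℕ) : fi (a :: u) 0 = 0 := by simp [fi, co]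

theorem fi_succ (c : ℕ) (u : List ℕ) (k : ℕ) : k * fi ((c + 1) :: u) k = fi (c :: u) k := by
  rcases k.eq_zero_or_pos with rfl | h
  · simp [fi_zero]
  · have : (k : ℝ) ≠ 0 := by positivity
    simp only [fi, co]
    field_simp
    ring

theorem fi_one (u : List ℕ) (k : ℕ) :
    fi (1 :: u) (k + 1) * (4 * k + 2) = k * fi (1 :: u) k + fi u k := by
  rw [fi_succ 0]
  have h1 := cb_succ k
  have h2 := cb_pos k
  have h3 := cb_pos (k + 1)
  simp only [fi, co, pow_zero, pow_one, div_one, sum_range_succ]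
  push_cast
  field_simp
  linear_combination -(∑ j ∈ range k, co u j + co u k) * h1

theorem tail_le {ν : ℕ → ℝ} (h : ∀ k, 0 ≤ ν k ∧ ν k ≤ 1) (j k : ℕ) :
    ν (k + (j + 1)) / (((k + (j + 1) : ℕ) : ℝ) * centralBinom (k + (j + 1))) ≤
      (centralBinom j : ℝ)⁻¹ / 2 / 2 ^ k := by
  have h1 := cb_ge j (k + 1)
  have h2 := cb_pos j
  have h3 : (1 : ℝ) ≤ ((k + (j + 1) : ℕ) : ℝ) := by exact_mod_cast (by omega : 1 ≤ k + (j + 1))
  rw [show k + 1 + j = k + (j + 1) by ring] at h1
  rw [div_div, inv_eq_one_div, div_div]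
  refine div_le_div₀ zero_le_one (h _).2 (by positivity) ?_
  calc _ = 1 * (2 ^ (k + 1) * (centralBinom j : ℝ)) := by ring
    _ ≤ _ := by gcongr

theorem tail_sum {ν : ℕ → ℝ} (h : ∀ k, 0 ≤ ν k ∧ ν k ≤ 1) (j : ℕ) : Summable fun k =>
    ν (k + (j + 1)) / (((k + (j + 1) : ℕ) : ℝ) * centralBinom (k + (j + 1))) :=
  Summable.of_nonneg_of_le (fun k => div_nonneg (h _).1 (by positivity)) (tail_le h j)
    (summable_geometric_two' _)

theorem mu_bd (v : List ℕ) : ∀ k, 0 ≤ mu v k ∧ mu v k ≤ 1 := by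
  induction v with
  | nil => exact fun k => ⟨by simp [mu], by simpa [mu] using k.cast_inv_le_one⟩
  | cons c u ih =>
    intro j
    have h0 : 0 ≤ ∑' k, mu u (k + (j + 1)) /
        (((k + (j + 1) : ℕ) : ℝ) * centralBinom (k + (j + 1))) :=
      tsum_nonneg fun k => div_nonneg (ih _).1 (by positivity)
    have h1 := (tail_sum ih j).tsum_le_tsum (tail_le ih j) (summable_geometric_two' _)
    rw [tsum_geometric_two'] at h1
    have h2 := cb_pos j
    have h3 := (mul_le_mul_of_nonneg_left h1 h2.le).trans_eq (mul_inv_cancel₀ h2.ne')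
    refine ⟨by rw [mu]; positivity, ?_⟩
    rw [mu]
    rcases (j ^ (c - 1)).eq_zero_or_pos with e | e
    · rw [← cast_pow, e]; simp
    · exact (_root_.div_le_self (by positivity) (by exact_mod_cast e)).trans h3

theorem mup_bd (v : List ℕ) (k : ℕ) : 0 ≤ mup v k ∧ mup v k ≤ 1 := by
  unfold mup
  split_ifs
  exacts [by simp, mu_bd _ _]

/-- an index which is empty or starts with an entry at least two -/
def EvH (w : List ℕ) : Prop := w = [] ∨ ∃ c u, w = (c + 2) :: u

theorem mu_ev {v : List ℕ} (h : EvH v) {k : ℕ} (hk : 0 < k) : k * mu v k = mup v k := by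
  have : (k : ℝ) ≠ 0 := by positivity
  rcases h with rfl | ⟨c, u, rfl⟩
  · simp [mu, mup, this]
  · simp only [mup, par, mu, reduceCtorEq, if_false, show ¬ c + 2 ≤ 1 by omega,
      show c + 2 - 1 = c + 1 from rfl, Nat.add_sub_cancel]
    field_simp
    ring

theorem mu_od (u : List ℕ) (k : ℕ) :
    (4 * k + 2) * mu (1 :: u) k - (k + 1) * mu (1 :: u) (k + 1) = mu u (k + 1) := by
  have h1 := cb_succ k
  have h2 := cb_pos (k + 1)
  simp only [mu, Nat.sub_self, pow_zero, div_one]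
  rw [(tail_sum (mu_bd u) k).tsum_eq_zero_add]
  simp only [zero_add, show ∀ i, i + 1 + (k + 1) = i + (k + 1 + 1) from fun i => by ring]
  rw [← mul_assoc, ← mul_assoc, ← h1]
  push_cast
  field_simp
  ring

/-- the pairing -/
noncomputable def ZZ (w : List ℕ) (ν : ℕ → ℝ) : ℝ := ∑' k, fi w k * ν k

theorem hs (w : List ℕ) {ν : ℕ → ℝ} (h : ∀ k, 0 ≤ ν k ∧ ν k ≤ k + 1) :
    HasSum (fun k => fi w k * ν k) (ZZ w ν) := by
  refine (Summable.of_nonneg_of_le (fun k => mul_nonneg (fi_nonneg w k) (h k).1) (fun k => ?_)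
    (summable_pg (w.length + 1) one_half_pos one_half_lt_one)).hasSum
  calc _ ≤ ((k : ℝ) + 1) ^ w.length * (1 / 2) ^ k * (k + 1) :=
        mul_le_mul (fi_le w k) (h k).2 (h k).1 (by positivity)
    _ = _ := by ring

section rules

variable {ν : ℕ → ℝ} (h : ∀ k, 0 ≤ ν k ∧ ν k ≤ 1)
include h

theorem hZ (w : List ℕ) : HasSum (fun k => fi w k * ν k) (ZZ w ν) :=
  hs w fun k => ⟨(h k).1, (h k).2.trans (le_add_of_nonneg_left k.cast_nonneg)⟩

theorem hY (w : List ℕ) : HasSum (fun k => fi w k * (k * ν k)) (ZZ w fun k => k * ν k) :=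
  hs w fun k => ⟨mul_nonneg k.cast_nonneg (h k).1,
    (mul_le_of_le_one_right k.cast_nonneg (h k).2).trans (by linarith)⟩

theorem w_od' (u : List ℕ) : HasSum (fun k => fi (1 :: u) (k + 1) * ((4 * k + 2) * ν k))
    ((ZZ (1 :: u) fun k => k * ν k) + ZZ u ν) :=
  ((hY h _).add (hZ h u)).congr_fun fun k => by linear_combination ν k * fi_one u k

theorem w_od (u : List ℕ) : 4 * (ZZ (1 :: u) fun k => k * ν k) - 2 * ZZ (1 :: u) ν =
    (ZZ (1 :: u) fun k => k * ν (k + 1)) + ZZ u fun k => ν (k + 1) := by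
  have h1 := (hasSum_nat_add_iff' 1).2
    (((hY h (1 :: u)).mul_left 4).sub ((hZ h (1 :: u)).mul_left 2))
  simp only [sum_range_one, fi_zero, zero_mul, mul_zero, sub_zero] at h1
  refine h1.unique ((w_od' (ν := fun k => ν (k + 1)) (fun k => h _) u).congr_fun fun k => ?_)
  push_cast
  ring

omit h in
theorem w_ev {w : List ℕ} (hw : EvH w) :
    (ZZ w fun k => k * ν k) = if w = [] then 0 else ZZ (par w) ν := by
  rcases hw with rfl | ⟨c, u, rfl⟩
  · rw [if_pos rfl, ZZ, ← tsum_zero (β := ℕ)]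
    exact tsum_congr fun k => by cases k <;> simp [fi, co]
  · rw [if_neg (by simp), par, if_neg (by omega)]
    exact tsum_congr fun k => by
      rw [show c + 2 - 1 = c + 1 from rfl, ← fi_succ (c + 1)]; ring

end rules

/-- the moments -/
noncomputable def Z (v w : List ℕ) (j : ℕ) : ℝ := ZZ w fun k => mu v (k + j)

/-- the moments for the parent of the first index -/
noncomputable def Zp (v w : List ℕ) (j : ℕ) : ℝ := ZZ w fun k => mup v (k + j)

/-- the moments for the parent of the second index -/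
noncomputable def Zw (v w : List ℕ) (j : ℕ) : ℝ := if w = [] then 0 else Z v (par w) j

/-- the weighted moments -/
noncomputable def Y (v w : List ℕ) (j : ℕ) : ℝ := ZZ w fun k => k * mu v (k + j)

/-- the central binomial sums -/
noncomputable def E (w : List ℕ) : ℝ := ZZ w fun _ => 1

theorem Zp_nil (w : List ℕ) (j : ℕ) : Zp [] w j = E w := by simp [Zp, mup, E]

theorem Zp_cons (c : ℕ) (u w : List ℕ) (j : ℕ) : Zp (c :: u) w j = Z (par (c :: u)) w j := by
  simp [Zp, mup, Z]

theorem a_ev {v : List ℕ} (h : EvH v) {w : List ℕ} {j : ℕ} (hj : 0 < j ∨ fi w 0 = 0) :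
    Y v w j + j * Z v w j = Zp v w j := by
  refine ((hY (fun k => mu_bd v (k + j)) w).add
    ((hZ (fun k => mu_bd v (k + j)) w).mul_left (j : ℝ))).unique
    ((hZ (fun k => mup_bd v (k + j)) w).congr_fun fun k => ?_)
  rcases (k + j).eq_zero_or_pos with e | e
  · obtain rfl : k = 0 := by omega
    simp [hj.resolve_left (by omega)]
  · rw [← mu_ev h e]
    push_cast
    ring

theorem a_od (u w : List ℕ) (j : ℕ) : 4 * Y (1 :: u) w j + (4 * j + 2) * Z (1 :: u) w j -
    (Y (1 :: u) w (j + 1) + (j + 1) * Z (1 :: u) w (j + 1)) = Zp (1 :: u) w (j + 1) := by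
  rw [Zp_cons]
  refine ((((hY (fun k => mu_bd _ (k + j)) w).mul_left 4).add
    ((hZ (fun k => mu_bd _ (k + j)) w).mul_left _)).sub
    ((hY (fun k => mu_bd _ (k + (j + 1))) w).add
    ((hZ (fun k => mu_bd _ (k + (j + 1))) w).mul_left _))).unique
    ((hZ (fun k => mu_bd u (k + (j + 1))) w).congr_fun fun k => ?_)
  have := mu_od u (k + j)
  push_cast at this
  rw [← add_assoc]
  linear_combination fi w k * this

theorem b_ev (v : List ℕ) {w : List ℕ} (h : EvH w) (j : ℕ) : Y v w j = Zw v w j := w_ev h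

theorem b_od (v u : List ℕ) (j : ℕ) : 4 * Y v (1 :: u) j - 2 * Z v (1 :: u) j =
    Y v (1 :: u) (j + 1) + Zw v (1 :: u) (j + 1) := by
  have := w_od (ν := fun k => mu v (k + j)) (fun k => mu_bd v _) u
  simp only [show ∀ k, k + 1 + j = k + (j + 1) from fun k => by ring] at this
  rw [Zw, if_neg (by simp)]
  exact this

theorem r_ee {v w : List ℕ} (hv : EvH v) (hw : EvH w) (j : ℕ) :
    (j + 1) * Z v w (j + 1) = Zp v w (j + 1) - Zw v w (j + 1) := by
  have := a_ev hv (w := w) (Or.inl j.succ_pos)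
  push_cast at this
  linear_combination this - b_ev v hw (j + 1)

theorem r_oo (t u : List ℕ) (j : ℕ) :
    (j + 1) * (4 * Z (1 :: t) (1 :: u) j - Z (1 :: t) (1 :: u) (j + 1)) =
      Zp (1 :: t) (1 :: u) (j + 1) - Zw (1 :: t) (1 :: u) (j + 1) := by
  linear_combination a_od t (1 :: u) j - b_od (1 :: t) u j

theorem r_oe (t : List ℕ) {w : List ℕ} (hw : EvH w) (j : ℕ) :
    (j + 1) * Z (1 :: t) w (j + 1) = (4 * j + 2) * Z (1 :: t) w j +
      (4 * Zw (1 :: t) w j - Zw (1 :: t) w (j + 1) - Zp (1 :: t) w (j + 1)) := by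
  linear_combination -a_od t w j + 4 * b_ev _ hw j - b_ev _ hw (j + 1)

theorem r_eo {v : List ℕ} (hv : EvH v) (u : List ℕ) (j : ℕ) :
    (j + 1) * Z v (1 :: u) (j + 1) = (4 * j + 2) * Z v (1 :: u) j +
      (Zw v (1 :: u) (j + 1) - (4 * Zp v (1 :: u) j - Zp v (1 :: u) (j + 1))) := by
  have := a_ev hv (w := 1 :: u) (Or.inl j.succ_pos)
  push_cast at this
  linear_combination this - 4 * a_ev hv (j := j) (Or.inr (fi_zero 1 u)) + b_od v u j

theorem tr_ev {v : List ℕ} (hv : EvH v) (c : ℕ) (u : List ℕ) :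
    Z v ((c + 1) :: u) 0 = Zp v ((c + 2) :: u) 0 := by
  have h1 := a_ev hv (j := 0) (Or.inr (fi_zero (c + 2) u))
  rw [b_ev v (Or.inr ⟨c, u, rfl⟩), Zw, if_neg (by simp), par, if_neg (by omega)] at h1
  simpa using h1

theorem tr_od (t u : List ℕ) : Z (1 :: t) u 0 = Z t (1 :: u) 0 := by
  have h1 := (hasSum_nat_add_iff' 1).2 (hZ (mu_bd t) (1 :: u))
  have h2 := (hasSum_nat_add_iff' 1).2 (hY (mu_bd (1 :: t)) (1 :: u))
  simp only [sum_range_one, fi_zero, zero_mul, sub_zero] at h1 h2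
  have h3 := ((w_od' (mu_bd (1 :: t)) u).sub h2).unique (h1.congr_fun fun k => by
    rw [← mu_od t k]; push_cast; ring)
  simp only [Z, add_zero]
  linear_combination h3

/-- indices with entries two and three -/
def Ev (u : List ℕ) : Prop := ∀ c ∈ u, c = 2 ∨ c = 3

theorem Ev.evH {u : List ℕ} (h : Ev u) : EvH u := by
  cases u with
  | nil => exact Or.inl rfl
  | cons c u =>
    rcases h c (by simp) with rfl | rfl
    exacts [Or.inr ⟨0, u, rfl⟩, Or.inr ⟨1, u, rfl⟩]

theorem Ev.tail {c : ℕ} {u : List ℕ} (h : Ev (c :: u)) : Ev u := fun a ha => h a (by simp [ha])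

theorem Ev.cons {c : ℕ} {u : List ℕ} (h : Ev u) (hc : c = 2 ∨ c = 3) : Ev (c :: u) := by
  simpa [Ev, hc] using h

theorem transfer {t : List ℕ} (ht : Ev t) : ∀ u, Ev u →
    ∃ e, Ev e ∧ e.sum = t.sum + u.sum + 2 ∧ Z t (1 :: u) 0 = E e := by
  induction t with
  | nil =>
    exact fun u hu => ⟨2 :: u, hu.cons (Or.inl rfl), by simp; ring,
      by rw [tr_ev ht.evH 0, Zp_nil]⟩
  | cons c t ih =>
    intro u hu
    obtain ⟨e, h1, h2, h3⟩ := ih ht.tail _ (hu.cons (ht c (by simp)))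
    refine ⟨e, h1, by simp at h2 ⊢; omega, ?_⟩
    rw [← h3, ← tr_od t (c :: u), tr_ev ht.evH 0, Zp_cons]
    rcases ht c (by simp) with rfl | rfl
    · rfl
    · rw [show par (3 :: t) = 2 :: t from rfl]
      exact (tr_ev (Or.inr ⟨0, t, rfl⟩) 1 u).trans (Zp_cons _ _ _ _)

end Pool.Agent.Lib.MP_dda4e9_nt.RK
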