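import Pool.Agent.Lib.MP_dda4e9_nt.LbS

/-! A connection on a finite tree: every nonzero stable submodule contains a multiple of the
root. -/

namespace Pool.Agent.Lib.MP_dda4e9_nt.RK

open Polynomial Finset LB

/-- a finite rooted tree in which a vertex has at most one odd and one even child -/
structure Tr (ι : Type) where
  par : ι → ι
  od : ι → Bool
  wt : ι → ℕ
  rt : ι
  par_rt : par rt = rt
  od_rt : od rt = false
  wt_rt : wt rt = 0
  wt_par : ∀ v, v ≠ rt → wt v = wt (par v) + 1
  inj : ∀ v v', v ≠ rt → v' ≠ rt → par v = par v' → od v = od v' → v = v'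

theorem inf_lem {a b β : ℂ[X]} (c : ℂ) (ha : a ≠ 0) (h1 : β.natDegree ≤ 1) (h2 : β.coeff 1 ≠ 0)
    (h : X * (4 - X) * (a * derivative b - derivative a * b) + C c * (a * b) + β * a ^ 2 = 0) :
    False := by
  have hT : (X * (4 - X) : ℂ[X]) = -(X * X) + C 4 * X := by
    rw [show (C 4 : ℂ[X]) = 4 from rfl]; ring
  have key : ∀ e, b.natDegree ≤ e →
      (X * (a * derivative b - derivative a * b)).natDegree ≤ a.natDegree + e ∧
      (X * (a * derivative b - derivative a * b)).coeff (a.natDegree + e) =
        ((e : ℂ) - a.natDegree) * (a.leadingCoeff * b.coeff e) := fun e he => by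
    have d1 : ∀ (p : ℂ[X]) k, (X * derivative p).coeff k = k * p.coeff k := fun p k => by
      cases k with
      | zero => simp
      | succ k => rw [coeff_X_mul, coeff_derivative]; push_cast; ring
    have d2 : ∀ (p : ℂ[X]) k, p.natDegree ≤ k → (X * derivative p).natDegree ≤ k :=
      fun p k hk => natDegree_le_iff_coeff_eq_zero.2 fun i hi => by
        rw [d1, coeff_eq_zero_of_natDegree_lt (hk.trans_lt hi), mul_zero]
    have e1 : X * (a * derivative b - derivative a * b) =
        a * (X * derivative b) - X * derivative a * b := by ring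
    rw [e1]
    refine ⟨(natDegree_sub_le _ _).trans (max_le ?_ ?_), ?_⟩
    · exact natDegree_mul_le_of_le le_rfl (d2 b e he)
    · exact natDegree_mul_le_of_le (d2 a _ le_rfl) he
    · rw [coeff_sub, coeff_mul_add_eq_of_natDegree_le le_rfl (d2 b e he),
        coeff_mul_add_eq_of_natDegree_le (d2 a _ le_rfl) he, d1, d1, leadingCoeff]
      ring
  have hl := leadingCoeff_ne_zero.2 ha
  obtain ⟨e, he, he1, he2⟩ : ∃ e, b.natDegree ≤ e ∧ a.natDegree ≤ e ∧
      (e = a.natDegree ∨ (a.natDegree < e ∧ b.coeff e ≠ 0)) := by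
    rcases le_or_gt b.natDegree a.natDegree with h3 | h3
    · exact ⟨_, h3, le_rfl, Or.inl rfl⟩
    · exact ⟨_, le_rfl, h3.le, Or.inr ⟨h3, leadingCoeff_ne_zero.2 (by rintro rfl; simp at h3)⟩⟩
  obtain ⟨k1, k2⟩ := key e he
  set W := X * (a * derivative b - derivative a * b)
  have h3 : -(X * W) + C 4 * W + C c * (a * b) + β * (a * a) = 0 := by
    rw [show (C 4 : ℂ[X]) = 4 from rfl]; linear_combination h
  have h4 := congrArg (fun p => p.coeff (a.natDegree + e + 1)) h3
  have h5 : (a * b).coeff (a.natDegree + e + 1) = 0 :=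
    coeff_eq_zero_of_natDegree_lt (Nat.lt_succ_of_le (natDegree_mul_le_of_le le_rfl he))
  simp only [coeff_add, coeff_neg, coeff_X_mul, coeff_C_mul, k2, h5, coeff_zero,
    coeff_eq_zero_of_natDegree_lt (Nat.lt_succ_of_le k1), mul_zero, add_zero] at h4
  rcases he2 with rfl | ⟨h6, h7⟩
  · rw [add_comm _ 1, coeff_mul_add_eq_of_natDegree_le h1 natDegree_mul_le,
      coeff_mul_add_eq_of_natDegree_le le_rfl le_rfl] at h4
    simp [h2, ha] at h4
  · rw [coeff_eq_zero_of_natDegree_lt (p := β * (a * a)) (by
      have := natDegree_mul_le_of_le h1 (natDegree_mul_le (p := a) (q := a))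
      omega)] at h4
    have : (e : ℂ) - a.natDegree ≠ 0 := sub_ne_zero.2 (by exact_mod_cast h6.ne')
    simp [this, ha, h7] at h4

theorem half_lem {a b : ℂ[X]} (ha : a ≠ 0) (hb : b ≠ 0)
    (h : X * (4 - X) * (a * derivative b - derivative a * b) = 2 * (a * b)) : False := by
  obtain ⟨i, a1, rfl, h1⟩ := factor 0 ha
  obtain ⟨j, b1, rfl, h2⟩ := factor 0 hb
  have h3 := wr 0 a1 b1 i j
  have h0 : (X - C 0 : ℂ[X]) ^ (i + j) ≠ 0 := pow_ne_zero _ (X_sub_C_ne_zero 0)
  have h4 := mul_left_cancel₀ h0 (b := (4 - X) * (C ((j : ℂ) - i) * a1 * b1 +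
      (X - C 0) * (a1 * derivative b1 - derivative a1 * b1))) (c := 2 * (a1 * b1)) (by
    simp only [map_zero, sub_zero] at h h3 ⊢
    linear_combination h - (4 - X) * h3)
  have h5 := congrArg (eval 0) h4
  simp only [eval_mul, eval_sub, eval_add, eval_ofNat, eval_X, eval_C, sub_zero, zero_mul,
    add_zero] at h5
  have h6 : (4 : ℂ) * (j - i) = 2 := mul_right_cancel₀ (mul_ne_zero h1 h2) (by linear_combination h5)
  have h7 : (4 : ℤ) * (j - i) = 2 := by exact_mod_cast h6
  omega

/-- the common denominator -/
noncomputable def TT : ℂ[X] := (X - 1) * (X * (4 - X))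

theorem X1_ne : (X - 1 : ℂ[X]) ≠ 0 := by simpa using X_sub_C_ne_zero (1 : ℂ)

namespace Tr

variable {ι : Type} [DecidableEq ι] (t : Tr ι)

/-- the diagonal constant -/
def al (v : ι) : ℕ := if t.od v then 2 else 0

/-- the coefficient of the parent -/
noncomputable def be (v : ι) : ℂ[X] := if v = t.rt then 0 else if t.od v then X else 4 - X

/-- the diagonal term -/
noncomputable def aa (v : ι) : ℂ[X] := (X - 1) * C (t.al v : ℂ)

/-- the term of the parent -/
noncomputable def bb (v : ι) : ℂ[X] := (X - 1) * t.be v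

omit [DecidableEq ι] in
theorem aa_rt : t.aa t.rt = 0 := by simp [aa, al, t.od_rt]

theorem bb_rt : t.bb t.rt = 0 := by simp [bb, be]

theorem deg_be (v : ι) : (t.be v).natDegree ≤ 1 := by
  unfold be
  split_ifs
  · simp
  · exact natDegree_X_le
  · compute_degree

variable [Fintype ι]

/-- the connection -/
noncomputable def DD (A : ι → ℂ[X]) (u : ι) : ℂ[X] :=
  TT * derivative (A u) + t.aa u * A u + ∑ v, if t.par v = u then t.bb v * A v else 0

theorem reindex {M : Type*} [AddCommMonoid M] (F : ι → ι → M) :
    ∑ v, F v (t.par v) = ∑ u, ∑ v, if t.par v = u then F v u else 0 := by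
  rw [sum_comm]
  simp

theorem root_mem (P : Submodule ℂ[X] (ι → ℂ[X])) (hD : ∀ A ∈ P, t.DD A ∈ P) :
    ∀ A ∈ P, A ≠ 0 → ∃ a ≠ 0, Pi.single t.rt a ∈ P := by
  suffices h : ∀ s : Finset ι, (∀ x ∈ s, t.par x ∈ s) → ∀ A ∈ P, A ≠ 0 → (∀ u ∉ s, A u = 0) →
      ∃ a ≠ 0, Pi.single t.rt a ∈ P from
    fun A hA h0 => h univ (by simp) A hA h0 (by simp)
  intro s
  induction s using Finset.induction_on_max_value t.wt with
  | empty => exact fun _ A _ h hs => absurd (funext fun u => hs u (by simp)) h
  | insert v s hv hmax ih =>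
    intro hcl A hA hne hs
    have hw : ∀ u, A u ≠ 0 → t.wt u ≤ t.wt v := fun u hu => by
      rcases mem_insert.1 (by_contra fun h => hu (hs u h)) with rfl | h
      exacts [le_rfl, hmax u h]
    have ih := ih fun x hx => (mem_insert.1 (hcl x (mem_insert_of_mem hx))).resolve_left fun e => by
      by_cases h : x = t.rt
      · rw [h, t.par_rt] at e
        exact hv (e ▸ h ▸ hx)
      · have := t.wt_par x h
        have := hmax x hx
        rw [e] at *
        omega
    have top : ∀ u, t.wt v ≤ t.wt u → t.DD A u = TT * derivative (A u) + t.aa u * A u :=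
      fun u hu => by
        rw [DD, sum_eq_zero fun x _ => ?_, add_zero]
        split_ifs with h
        · by_cases hx : x = t.rt
          · rw [hx, bb_rt, zero_mul]
          · have := t.wt_par x hx
            rw [by_contra fun e => absurd (hw x e) (by rw [h] at this; omega), mul_zero]
        · rfl
    by_cases ha : A v = 0
    · exact ih A hA hne fun u hu => by
        by_cases e : u = v
        exacts [e ▸ ha, hs u (by simp [e, hu])]
    by_cases h2 : A v • t.DD A - t.DD A v • A = 0
    swap
    · refine ih _ (P.sub_mem (P.smul_mem _ (hD A hA)) (P.smul_mem _ hA)) h2 fun u hu => ?_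
      simp only [Pi.sub_apply, Pi.smul_apply, smul_eq_mul]
      by_cases e : u = v
      · rw [e]; ring
      have hu' : u ∉ insert v s := by simp [e, hu]
      rw [DD, hs u hu', sum_eq_zero fun x _ => ?_]
      · simp
      · split_ifs with h
        · rw [hs x fun hx => hu' (h ▸ hcl x hx), mul_zero]
        · rfl
    have h3 : ∀ u, A v * t.DD A u = (TT * derivative (A v) + t.aa v * A v) * A u :=
      fun u => top v le_rfl ▸ sub_eq_zero.1 (congrFun h2 u)
    by_cases hr : v = t.rt
    · refine ⟨A v, ha, ?_⟩
      convert hA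
      ext1 u
      by_cases e : u = t.rt
      · simp [e, hr]
      · have := t.wt_par u e
        rw [Pi.single_eq_of_ne e]
        exact (by_contra fun h => absurd (hw u h) (by rw [hr, t.wt_rt]; omega) : A u = 0).symm
    exfalso
    have h4 : ∀ x, x ≠ v → x ≠ t.rt → t.par x = t.par v → A x = 0 := fun x hx hx' e =>
      by_contra fun h => by
        have h5 := h3 x
        rw [top x (by rw [t.wt_par x hx', t.wt_par v hr, e])] at h5
        have h6 : t.od x ≠ t.od v := fun h => hx (t.inj x v hx' hr e h)
        simp only [TT, aa, al] at h5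
        cases h7 : t.od v
        · have h8 : t.od x = true := by simpa [h7] using h6
          refine half_lem h ha (mul_left_cancel₀ X1_ne ?_)
          simp only [h7, h8, if_true, Bool.false_eq_true, if_false, Nat.cast_ofNat, Nat.cast_zero,
            map_zero, map_ofNat] at h5
          linear_combination -h5
        · have h8 : t.od x = false := by simpa [h7] using h6
          refine half_lem ha h (mul_left_cancel₀ X1_ne ?_)
          simp only [h7, h8, if_true, Bool.false_eq_true, if_false, Nat.cast_ofNat, Nat.cast_zero,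
            map_zero, map_ofNat] at h5
          linear_combination h5
    have h5 := h3 (t.par v)
    rw [DD, sum_eq_single v (fun x _ hx => ?_) (by simp), if_pos rfl] at h5
    · refine inf_lem (b := A (t.par v)) (β := t.be v) (t.al (t.par v) - t.al v) ha ?_ ?_
        (mul_left_cancel₀ X1_ne ?_)
      · exact t.deg_be v
      · rw [be, if_neg hr]
        split_ifs
        · simp
        · rw [show (4 : ℂ[X]) = C 4 from rfl, coeff_sub, coeff_C, coeff_X_one]; simp
      · simp only [TT, aa, bb, map_sub] at h5 ⊢
        linear_combination h5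
    · split_ifs with h
      · by_cases e : x = t.rt
        · rw [e, bb_rt, zero_mul]
        · rw [h4 x hx e h, mul_zero]
      · rfl

end Tr

end Pool.Agent.Lib.MP_dda4e9_nt.RK
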